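import Pool.Agent.Y306.HRT.Dioph

set_option autoImplicit false

open Complex Filter Topology Set

namespace Pool.Agent.Y306.HRT

noncomputable section

/-- coefficients of the solution of the cohomological equation -/
def hc (b : ℝ → ℝ → ℂ) (p : ℤ × ℤ) : ℂ :=
  if p = 0 then 0 else
    -(c2 b p.1 p.2) / (E (p.1 * ((√2 : ℝ) : ℂ)) * E (p.2 * ((√3 : ℝ) : ℂ)) - 1)

/-- solution of the cohomological equation -/
def hsol (b : ℝ → ℝ → ℂ) (x t : ℝ) : ℂ := ∑' p : ℤ × ℤ, hc b p * (E (p.1 * x) * E (p.2 * t))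

lemma one_add_cube_le {q : ℝ} (hq0 : 0 ≤ q) (hq1 : q < 1) :
    Summable (fun n : ℤ => (1 + |(n : ℝ)|) ^ 3 * q ^ n.natAbs) := by
  have h1 : Summable (fun n : ℕ => ((1 : ℝ) + n) ^ 3 * q ^ n) := by
    have h2 : ‖q‖ < 1 := by rw [Real.norm_eq_abs, abs_of_nonneg hq0]; exact hq1
    have a0 := summable_pow_mul_geometric_of_norm_lt_one 0 h2
    have a1 := summable_pow_mul_geometric_of_norm_lt_one 1 h2
    have a2 := summable_pow_mul_geometric_of_norm_lt_one 2 h2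
    have a3 := summable_pow_mul_geometric_of_norm_lt_one 3 h2
    have a4 := ((a0.add (a1.mul_left 3)).add (a2.mul_left 3)).add a3
    refine a4.congr (fun n => ?_)
    ring
  apply Summable.of_nat_of_neg
  · refine h1.congr (fun n => ?_)
    simp
  · refine h1.congr (fun n => ?_)
    simp

variable {b : ℝ → ℝ → ℂ} {M q : ℝ}

lemma hc_bound (hM : 0 ≤ M) (hq0 : 0 ≤ q)
    (h : ∀ k l, ‖c2 b k l‖ ≤ M * (q ^ k.natAbs * q ^ l.natAbs)) (p : ℤ × ℤ) :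
    ‖hc b p‖ ≤ (16 * M) * (((1 + |(p.1 : ℝ)|) ^ 3 * q ^ p.1.natAbs) *
      ((1 + |(p.2 : ℝ)|) ^ 3 * q ^ p.2.natAbs)) := by
  unfold hc
  split_ifs with h0
  · rw [norm_zero]; positivity
  · have hkl : ¬ (p.1 = 0 ∧ p.2 = 0) := by
      rintro ⟨h1, h2⟩
      exact h0 (Prod.ext h1 h2)
    have h1 := small_div p.1 p.2 hkl
    have h2 := h p.1 p.2
    have h3 : 0 < 1 / (16 * (1 + |(p.1 : ℝ)| + |(p.2 : ℝ)|) ^ 3) := by positivity
    rw [norm_div, norm_neg, div_le_iff₀ (lt_of_lt_of_le h3 h1)]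
    have h4 : (1 + |(p.1 : ℝ)| + |(p.2 : ℝ)|) ^ 3 ≤ (1 + |(p.1 : ℝ)|) ^ 3 * (1 + |(p.2 : ℝ)|) ^ 3 := by
      rw [← mul_pow]
      gcongr
      have := mul_nonneg (abs_nonneg (p.1 : ℝ)) (abs_nonneg (p.2 : ℝ))
      linarith
    calc ‖c2 b p.1 p.2‖ ≤ M * (q ^ p.1.natAbs * q ^ p.2.natAbs) := h2
      _ = (16 * M) * ((1 + |(p.1 : ℝ)| + |(p.2 : ℝ)|) ^ 3 * (q ^ p.1.natAbs * q ^ p.2.natAbs)) *
          (1 / (16 * (1 + |(p.1 : ℝ)| + |(p.2 : ℝ)|) ^ 3)) := by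
          have : (1 + |(p.1 : ℝ)| + |(p.2 : ℝ)|) ^ 3 ≠ 0 := by positivity
          field_simp
      _ ≤ (16 * M) * (((1 + |(p.1 : ℝ)|) ^ 3 * (1 + |(p.2 : ℝ)|) ^ 3) *
          (q ^ p.1.natAbs * q ^ p.2.natAbs)) *
          ‖E (p.1 * ((√2 : ℝ) : ℂ)) * E (p.2 * ((√3 : ℝ) : ℂ)) - 1‖ := by
          gcongr
      _ = _ := by ring

lemma hc_summable (hM : 0 ≤ M) (hq0 : 0 ≤ q) (hq1 : q < 1)
    (h : ∀ k l, ‖c2 b k l‖ ≤ M * (q ^ k.natAbs * q ^ l.natAbs)) :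
    ∃ g : ℤ × ℤ → ℝ, Summable g ∧ ∀ p, ‖hc b p‖ ≤ g p := by
  refine ⟨_, ?_, hc_bound hM hq0 h⟩
  refine Summable.mul_left _ ?_
  exact (one_add_cube_le hq0 hq1).mul_of_nonneg (one_add_cube_le hq0 hq1)
    (fun n => by positivity) (fun n => by positivity)

lemma norm_hterm (p : ℤ × ℤ) (x t : ℝ) :
    ‖hc b p * (E (p.1 * x) * E (p.2 * t))‖ = ‖hc b p‖ := by
  rw [norm_mul, norm_mul, norm_E_int_mul, norm_E_int_mul, mul_one, mul_one]

lemma continuous_hsol (hM : 0 ≤ M) (hq0 : 0 ≤ q) (hq1 : q < 1)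
    (h : ∀ k l, ‖c2 b k l‖ ≤ M * (q ^ k.natAbs * q ^ l.natAbs)) :
    Continuous (fun p : ℝ × ℝ => hsol b p.1 p.2) := by
  obtain ⟨g, hg, hgb⟩ := hc_summable hM hq0 hq1 h
  unfold hsol
  refine continuous_tsum (fun p => ?_) hg (fun p y => ?_)
  · exact continuous_const.mul ((continuous_E.comp (by fun_prop)).mul
      (continuous_E.comp (by fun_prop)))
  · rw [norm_hterm]; exact hgb p

lemma hsol_left (x t : ℝ) : hsol b (x + 1) t = hsol b x t := by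
  unfold hsol
  congr 1
  funext p
  congr 2
  push_cast
  rw [mul_add, mul_one, E_add, E_int, mul_one]

lemma hsol_right (x t : ℝ) : hsol b x (t + 1) = hsol b x t := by
  unfold hsol
  congr 1
  funext p
  congr 2
  push_cast
  rw [mul_add, mul_one, E_add, E_int, mul_one]

lemma hsol_coh (hM : 0 ≤ M) (hq0 : 0 ≤ q) (hq1 : q < 1)
    (h : ∀ k l, ‖c2 b k l‖ ≤ M * (q ^ k.natAbs * q ^ l.natAbs))
    (hb : ∀ x t : ℝ, HasSum (fun p : ℤ × ℤ => c2 b p.1 p.2 * (E (p.1 * x) * E (p.2 * t))) (b x t))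
    (x t : ℝ) : hsol b (x + √2) (t + √3) = hsol b x t + c2 b 0 0 - b x t := by
  obtain ⟨g, hg, hgb⟩ := hc_summable hM hq0 hq1 h
  have hs : ∀ x t : ℝ, HasSum (fun p : ℤ × ℤ => hc b p * (E (p.1 * x) * E (p.2 * t)))
      (hsol b x t) := by
    intro x t
    refine Summable.hasSum (Summable.of_norm_bounded hg (fun p => ?_))
    rw [norm_hterm]; exact hgb p
  have h1 := hs (x + √2) (t + √3)
  have h2 := (hs x t).sub (hb x t)
  have h3 := h2.add (hasSum_ite_eq (0 : ℤ × ℤ) (c2 b 0 0))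
  have h4 := h1.unique (h3.congr_fun ?_)
  · rw [h4]; ring
  intro p
  by_cases hp : p = 0
  · subst hp
    simp [hc, E_zero]
  · rw [if_neg hp]
    have hkl : ¬ (p.1 = 0 ∧ p.2 = 0) := by
      rintro ⟨h1, h2⟩
      exact hp (Prod.ext h1 h2)
    have h5 := small_div p.1 p.2 hkl
    have h6 : 0 < 1 / (16 * (1 + |(p.1 : ℝ)| + |(p.2 : ℝ)|) ^ 3) := by positivity
    have h7 : E (p.1 * ((√2 : ℝ) : ℂ)) * E (p.2 * ((√3 : ℝ) : ℂ)) - 1 ≠ 0 := by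
      rw [← norm_ne_zero_iff]
      exact (lt_of_lt_of_le h6 h5).ne'
    unfold hc
    rw [if_neg hp]
    push_cast
    rw [mul_add, mul_add, E_add, E_add]
    field_simp
    ring

end

end Pool.Agent.Y306.HRT
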