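import Pool.Agent.Y306.HRT.Zak
import Pool.Agent.Y306.HRT.Coh

set_option autoImplicit false

open Complex Filter Topology Set MeasureTheory intervalIntegral

namespace Pool.Agent.Y306.HRT

noncomputable section

section

variable {u v : ℝ} {al be : ℂ × ℂ → ℂ} {ρ K δ : ℝ}

/-- logarithm of the multiplier, complex version -/
def bc (u v : ℝ) (al be : ℂ × ℂ → ℂ) (z w : ℂ) : ℂ := Complex.log (mult u v al be (z / 2, w))

/-- logarithm of the multiplier, real version -/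
def br (u v : ℝ) (al be : ℂ × ℂ → ℂ) (x t : ℝ) : ℂ := bc u v al be x t

lemma half_mem (hρ : 0 < ρ) {z : ℂ} (hz : z ∈ St ρ) : z / 2 ∈ St ρ := by
  have h1 : (z / 2).im = z.im / 2 := by
    have : z / 2 = ((1 / 2 : ℝ) : ℂ) * z := by push_cast; ring
    rw [this, Complex.im_ofReal_mul]; ring
  show |(z / 2).im| < ρ
  have h2 : |z.im| < ρ := hz
  rw [h1, abs_div, abs_two]
  linarith [abs_nonneg z.im]

lemma mult_slit (hS : Setup u v al be ρ K δ) {y : ℂ × ℂ} (hy : y ∈ D ρ) :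
    mult u v al be y ∈ slitPlane := by
  have h1 := mult_sub_one hS hy
  have h2 : ‖mult u v al be y - 1‖ < 1 := by linarith
  have h3 := mem_slitPlane_of_norm_lt_one h2
  rwa [add_sub_cancel] at h3

lemma norm_log_mult (hS : Setup u v al be ρ K δ) {y : ℂ × ℂ} (hy : y ∈ D ρ) :
    ‖Complex.log (mult u v al be y)‖ ≤ 1 := by
  have h1 := mult_sub_one hS hy
  have h3 := Complex.norm_log_one_add_half_le_self (z := mult u v al be y - 1) (by linarith)
  rw [add_sub_cancel] at h3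
  linarith

lemma bc_diff_left (hS : Setup u v al be ρ K δ) {w : ℂ} (hw : w ∈ St ρ) :
    DifferentiableOn ℂ (fun z => bc u v al be z w) (St ρ) := by
  unfold bc
  have h1 : DifferentiableOn ℂ (fun z : ℂ => mult u v al be (z / 2, w)) (St ρ) :=
    (mult_slice_left hS hw).comp (by fun_prop : DifferentiableOn ℂ (fun z : ℂ => z / 2) (St ρ))
      (fun z hz => half_mem hS.hρ hz)
  exact h1.clog (fun z hz => mult_slit hS ⟨half_mem hS.hρ hz, hw⟩)

lemma bc_diff_right (hS : Setup u v al be ρ K δ) {z : ℂ} (hz : z ∈ St ρ) :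
    DifferentiableOn ℂ (fun w => bc u v al be z w) (St ρ) := by
  unfold bc
  exact (mult_slice_right hS (half_mem hS.hρ hz)).clog
    (fun w hw => mult_slit hS ⟨half_mem hS.hρ hz, hw⟩)

lemma bc_left (hS : Setup u v al be ρ K δ) {z w : ℂ} (hz : z ∈ St ρ) (hw : w ∈ St ρ) :
    bc u v al be (z + 1) w = bc u v al be z w := by
  unfold bc
  have h1 := mult_hf hS (y := (z / 2, w)) ⟨half_mem hS.hρ hz, hw⟩
  have h2 : ((z + 1) / 2, w) = ((z / 2, w) : ℂ × ℂ) + hf := by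
    unfold hf
    ext
    · simp; ring
    · simp
  rw [h2, h1]

lemma bc_right (hS : Setup u v al be ρ K δ) {z w : ℂ} (hz : z ∈ St ρ) (hw : w ∈ St ρ) :
    bc u v al be z (w + 1) = bc u v al be z w := by
  unfold bc
  have h1 := mult_right hS (y := (z / 2, w)) ⟨half_mem hS.hρ hz, hw⟩
  have h2 : (z / 2, w + 1) = ((z / 2, w) : ℂ × ℂ) + (0, 1) := by
    ext <;> simp
  rw [h2, h1]

lemma bc_norm (hS : Setup u v al be ρ K δ) {z w : ℂ} (hz : z ∈ St ρ) (hw : w ∈ St ρ) :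
    ‖bc u v al be z w‖ ≤ 1 :=
  norm_log_mult hS ⟨half_mem hS.hρ hz, hw⟩

lemma continuous_br (hS : Setup u v al be ρ K δ) :
    Continuous (fun p : ℝ × ℝ => br u v al be p.1 p.2) := by
  have h0 : Continuous (fun p : ℝ × ℝ => (p.1 / 2, p.2)) := by fun_prop
  have h1 := Continuous.comp (continuous_real_mult hS) h0
  have h2 : (fun p : ℝ × ℝ => mult u v al be (((p.1 : ℂ) / 2), (p.2 : ℂ))) =
      (fun p : ℝ × ℝ => mult u v al be ((p.1 : ℂ), (p.2 : ℂ))) ∘
        (fun p : ℝ × ℝ => (p.1 / 2, p.2)) := by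
    funext p
    have e : (((p.1 / 2 : ℝ)) : ℂ) = (p.1 : ℂ) / 2 := by push_cast; ring
    simp only [Function.comp]
    rw [e]
  rw [← h2] at h1
  have h3 : Continuous (fun p : ℝ × ℝ => Complex.log (mult u v al be (((p.1 : ℂ) / 2), (p.2 : ℂ)))) :=
    h1.clog (fun p => mult_slit hS ⟨half_mem hS.hρ (mem_St_of_real hS.hρ _),
      mem_St_of_real hS.hρ _⟩)
  exact h3

/-- the decay base -/
def qq (ρ : ℝ) : ℝ := Real.exp (-(Real.pi * (ρ / 2)))

lemma qq_pow (ρ : ℝ) (k : ℤ) : (qq ρ ^ k.natAbs) ^ 2 =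
    Real.exp (-(2 * Real.pi * (ρ / 2) * |(k : ℝ)|)) := by
  unfold qq
  rw [← Real.exp_nat_mul, ← Real.exp_nat_mul]
  congr 1
  have h3 : ((k.natAbs : ℕ) : ℝ) = |(k : ℝ)| := by
    rw [Nat.cast_natAbs]; simp
  rw [h3]
  push_cast
  ring

lemma br_c1 (hS : Setup u v al be ρ K δ) (k : ℤ) (t : ℝ) :
    ‖c1 (br u v al be) k t‖ ≤ 1 * (qq ρ ^ k.natAbs) ^ 2 := by
  rw [qq_pow]
  have hρ := hS.hρ
  exact coeff_bound (F := fun z => bc u v al be z t) (ρ := ρ) (r := ρ / 2) (M := 1)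
    (by linarith) (by linarith) (bc_diff_left hS (mem_St_of_real hρ t))
    (fun z hz => bc_left hS hz (mem_St_of_real hρ t))
    (fun z hz => bc_norm hS hz (mem_St_of_real hρ t)) k

lemma br_c1' (hS : Setup u v al be ρ K δ) (l : ℤ) (x : ℝ) :
    ‖∫ t in (0 : ℝ)..1, br u v al be x t * E (-(l * t))‖ ≤ 1 * (qq ρ ^ l.natAbs) ^ 2 := by
  rw [qq_pow]
  have hρ := hS.hρ
  exact coeff_bound (F := fun w => bc u v al be x w) (ρ := ρ) (r := ρ / 2) (M := 1)
    (by linarith) (by linarith) (bc_diff_right hS (mem_St_of_real hρ x))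
    (fun z hz => bc_right hS (mem_St_of_real hρ x) hz)
    (fun z hz => bc_norm hS (mem_St_of_real hρ x) hz) l

lemma br_left (hS : Setup u v al be ρ K δ) (x t : ℝ) :
    br u v al be (x + 1) t = br u v al be x t := by
  have := bc_left hS (mem_St_of_real hS.hρ x) (mem_St_of_real hS.hρ t)
  unfold br
  push_cast
  exact this

lemma br_right (hS : Setup u v al be ρ K δ) (x t : ℝ) :
    br u v al be x (t + 1) = br u v al be x t := by
  have := bc_right hS (mem_St_of_real hS.hρ x) (mem_St_of_real hS.hρ t)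
  unfold br
  push_cast
  exact this

lemma qq_nonneg (ρ : ℝ) : 0 ≤ qq ρ := (Real.exp_pos _).le

lemma qq_lt_one (hρ : 0 < ρ) : qq ρ < 1 := by
  unfold qq
  rw [Real.exp_lt_one_iff]
  have := Real.pi_pos
  have : 0 < Real.pi * (ρ / 2) := by positivity
  linarith

/-- the solution on the real plane -/
def Zf (u v : ℝ) (al be : ℂ × ℂ → ℂ) (s t : ℝ) : ℂ :=
  Complex.exp (hsol (br u v al be) (2 * s) t) * Zl u v al be ((s : ℂ), (t : ℂ))

lemma c2_br (hS : Setup u v al be ρ K δ) (k l : ℤ) :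
    ‖c2 (br u v al be) k l‖ ≤ 1 * (qq ρ ^ k.natAbs * qq ρ ^ l.natAbs) :=
  c2_bound (continuous_br hS) zero_le_one (qq_nonneg ρ) (br_c1 hS) (br_c1' hS) k l

lemma Zf_zq (hS : Setup u v al be ρ K δ) : ZQ (Zf u v al be) where
  cont := by
    have h1 := continuous_hsol (b := br u v al be) zero_le_one (qq_nonneg ρ) (qq_lt_one hS.hρ)
      (c2_br hS)
    have h0 : Continuous (fun p : ℝ × ℝ => (2 * p.1, p.2)) := by fun_prop
    have h2 : Continuous ((fun p : ℝ × ℝ => hsol (br u v al be) p.1 p.2) ∘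
        (fun p : ℝ × ℝ => (2 * p.1, p.2))) := Continuous.comp h1 h0
    have h3 : Continuous (fun p : ℝ × ℝ => Complex.exp (((fun p : ℝ × ℝ =>
        hsol (br u v al be) p.1 p.2) ∘ (fun p : ℝ × ℝ => (2 * p.1, p.2))) p)) := h2.cexp
    exact Continuous.mul h3 (continuous_real_Zl hS)
  left s t := by
    unfold Zf
    have h1 := Zl_left hS (real_mem_D hS.hρ s t)
    simp only [Prod.mk_add_mk, add_zero] at h1
    push_cast
    rw [h1, show 2 * (s + 1) = (2 * s + 1) + 1 by ring, hsol_left, hsol_left]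
    ring
  right s t := by
    unfold Zf
    have h1 := Zl_right hS (real_mem_D hS.hρ s t)
    simp only [Prod.mk_add_mk, add_zero] at h1
    push_cast
    rw [h1, hsol_right]

lemma Zf_ne (hS : Setup u v al be ρ K δ) : ¬ ∀ s t, Zf u v al be s t = 0 := by
  intro h
  have h1 : ∀ s t : ℝ, Zl u v al be ((s : ℂ), (t : ℂ)) = 0 := by
    intro s t
    exact (mul_eq_zero.1 (h s t)).resolve_left (Complex.exp_ne_zero _)
  have h2 := Zl_one hS _ (real_mem_D hS.hρ 0 0)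
  unfold pair at h2
  rw [real_sub_hf, h1, h1] at h2
  simp at h2

end

/-- the relation for the solution -/
lemma Zf_rel {al be : ℂ × ℂ → ℂ} {ρ K δ : ℝ} (hS : Setup (√2 / 2) √3 al be ρ K δ) (s t : ℝ) :
    E (-((√3 : ℝ) * ((s : ℂ) + ((√2 / 2 : ℝ) : ℂ)))) *
      (al (((s + √2 / 2 : ℝ) : ℂ), ((t + √3 : ℝ) : ℂ)) * Zf (√2 / 2) √3 al be (s + √2 / 2) (t + √3) +
       be (((s + √2 / 2 : ℝ) : ℂ), ((t + √3 : ℝ) : ℂ)) *
        Zf (√2 / 2) √3 al be (s + √2 / 2 - 1 / 2) (t + √3)) =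
      Complex.exp (c2 (br (√2 / 2) √3 al be) 0 0) * Zf (√2 / 2) √3 al be s t := by
  set u : ℝ := √2 / 2 with hu
  set v : ℝ := √3 with hv
  set b := br u v al be with hb
  have hy := real_mem_D hS.hρ s t
  have h1 := Lop_Zl hS hy
  have hcoh := hsol_coh (b := b) zero_le_one (qq_nonneg ρ) (qq_lt_one hS.hρ) (c2_br hS)
    (fun x t => hasSum_double (continuous_br hS) (br_left hS) (br_right hS) zero_le_one
      (qq_nonneg ρ) (qq_lt_one hS.hρ) (br_c1 hS) (br_c1' hS) x t) (2 * s) t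
  have h2u : 2 * (s + u) = 2 * s + √2 := by rw [hu]; ring
  have h2u' : 2 * (s + u - 1 / 2) + 1 = 2 * s + √2 := by rw [hu]; ring
  have hper : hsol b (2 * (s + u - 1 / 2)) (t + v) = hsol b (2 * s + √2) (t + v) := by
    rw [← h2u', hsol_left]
  have hexpb : Complex.exp (b (2 * s) t) = mult u v al be ((s : ℂ), (t : ℂ)) := by
    rw [hb]
    unfold br bc
    have e : (((2 * s : ℝ) : ℂ) / 2) = (s : ℂ) := by push_cast; ring
    rw [e, Complex.exp_log (mult_ne hS hy)]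
  have hmul : Complex.exp (hsol b (2 * s + √2) (t + v)) * mult u v al be ((s : ℂ), (t : ℂ)) =
      Complex.exp (c2 b 0 0) * Complex.exp (hsol b (2 * s) t) := by
    rw [hcoh, ← hexpb, ← Complex.exp_add, ← Complex.exp_add]
    congr 1
    ring
  unfold Zf
  rw [← hb, h2u, hper]
  unfold Lop at h1
  have e1 : ((s : ℂ), (t : ℂ)) + ta u v = (((s + u : ℝ) : ℂ), ((t + v : ℝ) : ℂ)) := by
    simp [ta]
  rw [e1, real_sub_hf] at h1
  simp only at h1
  calc _ = Complex.exp (hsol b (2 * s + √2) (t + v)) * (E (-((v : ℂ) * ((s : ℂ) + (u : ℂ)))) *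
      (al (((s + u : ℝ) : ℂ), ((t + v : ℝ) : ℂ)) * Zl u v al be (((s + u : ℝ) : ℂ), ((t + v : ℝ) : ℂ)) +
       be (((s + u : ℝ) : ℂ), ((t + v : ℝ) : ℂ)) *
        Zl u v al be (((s + u - 1 / 2 : ℝ) : ℂ), ((t + v : ℝ) : ℂ)))) := by ring
    _ = Complex.exp (hsol b (2 * s + √2) (t + v)) * (mult u v al be ((s : ℂ), (t : ℂ)) *
        Zl u v al be ((s : ℂ), (t : ℂ))) := by rw [h1]
    _ = (Complex.exp (hsol b (2 * s + √2) (t + v)) * mult u v al be ((s : ℂ), (t : ℂ))) *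
        Zl u v al be ((s : ℂ), (t : ℂ)) := by ring
    _ = _ := by rw [hmul]; ring

/-- **The relation.** -/
theorem exists_relation : ∃ (g : ℝ → ℂ) (F G : Finset (Fin 2 → ℤ)) (A B : (Fin 2 → ℤ) → ℂ) (C : ℂ),
    MemLp g 2 volume ∧ ¬ (g =ᵐ[volume] 0) ∧ C ≠ 0 ∧ ∀ x : ℝ,
      (∑ k ∈ F, A k * (E (k 0 * x) * g (x + k 1))) +
        (∑ k ∈ G, B k * (E (k 0 * x) * g (x - 1 / 2 + k 1))) =
      C * (E (((√3 : ℝ) : ℂ) * x) * g (x - √2 / 2)) := by
  obtain ⟨F, G, A, B, ρ, K, δ, hS⟩ := exists_setup (√2 / 2) √3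
  set al := trig F A with hal
  set be := trig G B with hbe
  set Z := Zf (√2 / 2) √3 al be with hZdef
  have hZ : ZQ Z := Zf_zq hS
  refine ⟨gz Z, F, G, A, B, Complex.exp (c2 (br (√2 / 2) √3 al be) 0 0), memLp_gz hZ, ?_,
    Complex.exp_ne_zero _, ?_⟩
  · intro h
    exact Zf_ne hS (eq_zero_of_gz hZ h)
  intro x
  set C := Complex.exp (c2 (br (√2 / 2) √3 al be) 0 0) with hC
  have hrel : ∀ t : ℝ, al ((x : ℂ), (t : ℂ)) * Z x t + be ((x : ℂ), (t : ℂ)) * Z (x - 1 / 2) t =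
      C * E (((√3 : ℝ) : ℂ) * x) * Z (x - √2 / 2) (t - √3) := by
    intro t
    have h1 := Zf_rel hS (x - √2 / 2) (t - √3)
    rw [sub_add_cancel, sub_add_cancel] at h1
    have e1 : (((x - √2 / 2 : ℝ) : ℂ) + ((√2 / 2 : ℝ) : ℂ)) = (x : ℂ) := by push_cast; ring
    rw [e1] at h1
    have h2 := E_mul_neg (((√3 : ℝ) : ℂ) * x)
    rw [← hZdef, ← hC] at h1
    linear_combination (E (((√3 : ℝ) : ℂ) * x)) * h1 -
      (al ((x : ℂ), (t : ℂ)) * Z x t + be ((x : ℂ), (t : ℂ)) * Z (x - 1 / 2) t) * h2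
  have hint := congrArg (fun f : ℝ → ℂ => ∫ t in (0 : ℝ)..1, f t) (funext hrel)
  have hR : (∫ t in (0 : ℝ)..1, C * E (((√3 : ℝ) : ℂ) * x) * Z (x - √2 / 2) (t - √3)) =
      C * (E (((√3 : ℝ) : ℂ) * x) * gz Z (x - √2 / 2)) := by
    rw [intervalIntegral.integral_const_mul, gz_shift hZ]
    ring
  have hcE : ∀ k : ℤ, Continuous (fun t : ℝ => E (k * t)) := fun k =>
    continuous_E.comp (by fun_prop)
  have htrig : ∀ (F : Finset (Fin 2 → ℤ)) (A : (Fin 2 → ℤ) → ℂ) (x' : ℝ),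
      (∫ t in (0 : ℝ)..1, trig F A ((x : ℂ), (t : ℂ)) * Z x' t) =
        ∑ k ∈ F, A k * (E (k 0 * x) * gz Z (x' + k 1)) := by
    intro F A x'
    have e1 : ∀ t : ℝ, trig F A ((x : ℂ), (t : ℂ)) * Z x' t =
        ∑ k ∈ F, (A k * E (k 0 * x)) * (E (k 1 * t) * Z x' t) := by
      intro t
      unfold trig
      rw [Finset.sum_mul]
      refine Finset.sum_congr rfl (fun k _ => ?_)
      simp only
      rw [E_add]
      ring
    simp only [e1]
    rw [intervalIntegral.integral_finsetSum]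
    · refine Finset.sum_congr rfl (fun k _ => ?_)
      rw [intervalIntegral.integral_const_mul, gz_add_int hZ]
      ring
    · intro k _
      exact (continuous_const.mul ((hcE (k 1)).mul (hZ.contr x'))).intervalIntegrable _ _
  have hcal : Continuous (fun t : ℝ => al ((x : ℂ), (t : ℂ))) :=
    (differentiable_trig F A).continuous.comp (by fun_prop)
  have hcbe : Continuous (fun t : ℝ => be ((x : ℂ), (t : ℂ))) :=
    (differentiable_trig G B).continuous.comp (by fun_prop)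
  have hL : (∫ t in (0 : ℝ)..1, al ((x : ℂ), (t : ℂ)) * Z x t +
      be ((x : ℂ), (t : ℂ)) * Z (x - 1 / 2) t) =
      (∑ k ∈ F, A k * (E (k 0 * x) * gz Z (x + k 1))) +
        (∑ k ∈ G, B k * (E (k 0 * x) * gz Z (x - 1 / 2 + k 1))) := by
    have i1 : IntervalIntegrable (fun t : ℝ => al ((x : ℂ), (t : ℂ)) * Z x t) volume 0 1 :=
      (hcal.mul (hZ.contr x)).intervalIntegrable _ _
    have i2 : IntervalIntegrable (fun t : ℝ => be ((x : ℂ), (t : ℂ)) * Z (x - 1 / 2) t)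
        volume 0 1 := (hcbe.mul (hZ.contr _)).intervalIntegrable _ _
    rw [intervalIntegral.integral_add i1 i2, hal, hbe, htrig, htrig]
  exact hL.symm.trans (hint.trans hR)

end

end Pool.Agent.Y306.HRT
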