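import Pool.Agent.Y306.HRT.Double

set_option autoImplicit false

open Complex Filter Topology Set

namespace Pool.Agent.Y306.HRT

noncomputable section

lemma irr_two : Irrational √2 := irrational_sqrt_two

lemma irr_three : Irrational √3 := by
  have : Irrational √((3 : ℕ) : ℝ) := Nat.Prime.irrational_sqrt (by norm_num)
  simpa using this

lemma sq_two_three {k l : ℤ} (h : 2 * k ^ 2 = 3 * l ^ 2) : k = 0 ∧ l = 0 := by
  by_contra hne
  have hl : l ≠ 0 := by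
    rintro rfl
    apply hne
    refine ⟨?_, rfl⟩
    have : k ^ 2 = 0 := by linarith
    exact pow_eq_zero_iff (two_ne_zero) |>.1 this
  have h6 : Irrational √((6 : ℕ) : ℝ) := by
    rw [irrational_sqrt_natCast_iff]
    rintro ⟨r, hr⟩
    have : r ≤ 6 := by nlinarith
    interval_cases r <;> omega
  apply h6
  have h1 : ((2 * k : ℤ) : ℝ) ^ 2 = 6 * (l : ℝ) ^ 2 := by
    have : (2 * k) ^ 2 = 6 * l ^ 2 := by linarith
    exact_mod_cast this
  have h2 : (|(2 * k : ℤ) / (l : ℝ)|) ^ 2 = 6 := by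
    rw [sq_abs, div_pow, h1]
    have : (l : ℝ) ≠ 0 := by exact_mod_cast hl
    field_simp
  refine ⟨|(2 * k : ℤ) / (l : ℚ)|, ?_⟩
  push_cast at h2 ⊢
  rw [eq_comm, Real.sqrt_eq_iff_mul_self_eq (by norm_num) (abs_nonneg _), ← h2]
  ring

lemma lin_indep {k l n : ℤ} (h : (k : ℝ) * √2 + l * √3 = n) : k = 0 ∧ l = 0 := by
  have s2 : √2 ^ 2 = 2 := Real.sq_sqrt (by norm_num)
  have s3 : √3 ^ 2 = 3 := Real.sq_sqrt (by norm_num)
  have h1 : (2 * n * k : ℝ) * √2 = ((n ^ 2 + 2 * k ^ 2 - 3 * l ^ 2 : ℤ) : ℝ) := by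
    push_cast
    have : (l : ℝ) * √3 = n - k * √2 := by linarith
    have h2 : ((l : ℝ) * √3) ^ 2 = (n - k * √2) ^ 2 := by rw [this]
    have h3 : (l : ℝ) ^ 2 * 3 = n ^ 2 - 2 * n * k * √2 + k ^ 2 * 2 := by
      calc (l : ℝ) ^ 2 * 3 = (l : ℝ) ^ 2 * √3 ^ 2 := by rw [s3]
        _ = ((l : ℝ) * √3) ^ 2 := by ring
        _ = (n - k * √2) ^ 2 := h2
        _ = n ^ 2 - 2 * n * k * √2 + k ^ 2 * √2 ^ 2 := by ring
        _ = _ := by rw [s2]
    linarith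
  have h4 : n * k = 0 := by
    by_contra hne
    apply irr_two
    refine ⟨((n ^ 2 + 2 * k ^ 2 - 3 * l ^ 2 : ℤ) : ℚ) / ((2 * (n * k) : ℤ) : ℚ), ?_⟩
    have h5 : ((2 * (n * k) : ℤ) : ℝ) ≠ 0 := by
      have : (2 * (n * k) : ℤ) ≠ 0 := by
        intro h0
        apply hne
        linarith
      exact_mod_cast this
    rw [Rat.cast_div, Rat.cast_intCast, Rat.cast_intCast, div_eq_iff h5, ← h1]
    push_cast
    ring
  have h5 : n ^ 2 + 2 * k ^ 2 - 3 * l ^ 2 = 0 := by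
    have : ((n ^ 2 + 2 * k ^ 2 - 3 * l ^ 2 : ℤ) : ℝ) = 0 := by
      rw [← h1]
      have : (n : ℝ) * k = 0 := by exact_mod_cast h4
      linear_combination 2 * √2 * this
    exact_mod_cast this
  rcases mul_eq_zero.1 h4 with h6 | h6
  · subst h6
    have : 2 * k ^ 2 = 3 * l ^ 2 := by linarith
    exact sq_two_three this
  · subst h6
    refine ⟨rfl, ?_⟩
    by_contra hl
    apply irr_three
    have h7 : (l : ℝ) * √3 = n := by simpa using h
    refine ⟨(n : ℚ) / l, ?_⟩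
    have hl' : (l : ℝ) ≠ 0 := by exact_mod_cast hl
    rw [Rat.cast_div, Rat.cast_intCast, Rat.cast_intCast, div_eq_iff hl']
    linarith

lemma norm_form (k l : ℤ) (hkl : ¬ (k = 0 ∧ l = 0)) :
    1 / (64 * (1 + |(k : ℝ)| + |(l : ℝ)|) ^ 3) ≤
      |(k : ℝ) * √2 + l * √3 - round ((k : ℝ) * √2 + l * √3)| := by
  set n := round ((k : ℝ) * √2 + l * √3) with hn
  have s2 : √2 ^ 2 = 2 := Real.sq_sqrt (by norm_num)
  have s3 : √3 ^ 2 = 3 := Real.sq_sqrt (by norm_num)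
  have hr : |(k : ℝ) * √2 + l * √3 - n| ≤ 1 / 2 := abs_sub_round _
  have b2 : √2 ≤ 3 / 2 := by
    rw [Real.sqrt_le_iff]; norm_num
  have b3 : √3 ≤ 7 / 4 := by
    rw [Real.sqrt_le_iff]; norm_num
  have hs2 := Real.sqrt_nonneg 2
  have hs3 := Real.sqrt_nonneg 3
  set m : ℝ := 1 + |(k : ℝ)| + |(l : ℝ)| with hm
  have hm1 : 1 ≤ m := by
    have := abs_nonneg (k : ℝ)
    have := abs_nonneg (l : ℝ)
    linarith
  set A := (k : ℝ) * √2 with hA
  set B := (l : ℝ) * √3 with hB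
  have hAB : |A| + |B| ≤ 7 / 4 * (m - 1) := by
    rw [hA, hB, abs_mul, abs_mul, abs_of_nonneg hs2, abs_of_nonneg hs3]
    have := abs_nonneg (k : ℝ)
    have := abs_nonneg (l : ℝ)
    nlinarith
  have hnn : |(n : ℝ)| ≤ |A| + |B| + 1 / 2 := by
    have h1 : |(n : ℝ)| ≤ |A + B| + |A + B - n| := by
      have := abs_sub_abs_le_abs_sub (n : ℝ) (A + B)
      rw [abs_sub_comm (n : ℝ) (A + B)] at this
      linarith
    have h2 := abs_add_le A B
    linarith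
  have hbound : ∀ x y : ℝ, |x| = |A| → |y| = |B| → |x + y - n| ≤ 4 * m := by
    intro x y hx hy
    have h1 := abs_sub (x + y) (n : ℝ)
    have h2 := abs_add_le x y
    linarith
  have hprod : (A + B - n) * ((A - B - n) * ((-A + B - n) * (-A - B - n))) =
      (((2 * k ^ 2 - n ^ 2) ^ 2 - 6 * l ^ 2 * (2 * k ^ 2 + n ^ 2) + 9 * l ^ 4 : ℤ) : ℝ) := by
    have hA2 : A ^ 2 = 2 * k ^ 2 := by rw [hA, mul_pow, s2]; ring
    have hB2 : B ^ 2 = 3 * l ^ 2 := by rw [hB, mul_pow, s3]; ring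
    have e1 : (A + B - n) * ((A - B - n) * ((-A + B - n) * (-A - B - n))) =
        (A ^ 2 - n ^ 2) ^ 2 - 2 * B ^ 2 * (A ^ 2 + n ^ 2) + (B ^ 2) ^ 2 := by ring
    rw [e1, hA2, hB2]
    push_cast
    ring
  have hne : ∀ ε δ : ℤ, ε ≠ 0 → δ ≠ 0 → (ε : ℝ) * A + δ * B - n ≠ 0 := by
    intro ε δ hε hδ h0
    apply hkl
    have h1 : ((ε * k : ℤ) : ℝ) * √2 + ((δ * l : ℤ) : ℝ) * √3 = n := by
      push_cast
      rw [hA, hB] at h0
      linarith
    obtain ⟨h2, h3⟩ := lin_indep h1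
    exact ⟨(mul_eq_zero.1 h2).resolve_left hε, (mul_eq_zero.1 h3).resolve_left hδ⟩
  have hN : (((2 * k ^ 2 - n ^ 2) ^ 2 - 6 * l ^ 2 * (2 * k ^ 2 + n ^ 2) + 9 * l ^ 4 : ℤ)) ≠ 0 := by
    intro h0
    rw [h0, Int.cast_zero] at hprod
    have n1 := hne 1 1 one_ne_zero one_ne_zero
    have n2 := hne 1 (-1) one_ne_zero (by norm_num)
    have n3 := hne (-1) 1 (by norm_num) one_ne_zero
    have n4 := hne (-1) (-1) (by norm_num) (by norm_num)
    push_cast at n1 n2 n3 n4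
    rcases mul_eq_zero.1 hprod with h | h
    · apply n1; linarith
    rcases mul_eq_zero.1 h with h | h
    · apply n2; linarith
    rcases mul_eq_zero.1 h with h | h
    · apply n3; linarith
    · apply n4; linarith
  have hge : (1 : ℝ) ≤ |(((2 * k ^ 2 - n ^ 2) ^ 2 - 6 * l ^ 2 * (2 * k ^ 2 + n ^ 2) +
      9 * l ^ 4 : ℤ) : ℝ)| := by
    have := Int.one_le_abs hN
    exact_mod_cast this
  rw [← hprod, abs_mul, abs_mul, abs_mul] at hge
  have q2 : |A - B - n| ≤ 4 * m := by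
    have := hbound A (-B) rfl (abs_neg B)
    rwa [← sub_eq_add_neg] at this
  have q3 : |-A + B - n| ≤ 4 * m := hbound (-A) B (abs_neg A) rfl
  have q4 : |-A - B - n| ≤ 4 * m := by
    have := hbound (-A) (-B) (abs_neg A) (abs_neg B)
    rwa [← sub_eq_add_neg] at this
  rw [div_le_iff₀ (by positivity)]
  calc (1 : ℝ) ≤ |A + B - n| * (|A - B - n| * (|-A + B - n| * |-A - B - n|)) := hge
    _ ≤ |A + B - n| * ((4 * m) * ((4 * m) * (4 * m))) := by gcongr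
    _ = _ := by ring

lemma E_real (x : ℝ) : E x = ee x := rfl

/-- small divisor bound -/
lemma small_div (k l : ℤ) (hkl : ¬ (k = 0 ∧ l = 0)) :
    1 / (16 * (1 + |(k : ℝ)| + |(l : ℝ)|) ^ 3) ≤
      ‖E (k * ((√2 : ℝ) : ℂ)) * E (l * ((√3 : ℝ) : ℂ)) - 1‖ := by
  rw [← E_add]
  have e1 : (k * ((√2 : ℝ) : ℂ) + l * ((√3 : ℝ) : ℂ)) = (((k : ℝ) * √2 + l * √3 : ℝ) : ℂ) := by
    push_cast; ring
  rw [e1, E_real, norm_sub_rev]
  refine le_trans ?_ (norm_one_sub_ee_ge _)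
  have := norm_form k l hkl
  calc 1 / (16 * (1 + |(k : ℝ)| + |(l : ℝ)|) ^ 3)
      = 4 * (1 / (64 * (1 + |(k : ℝ)| + |(l : ℝ)|) ^ 3)) := by
        have : (1 + |(k : ℝ)| + |(l : ℝ)|) ^ 3 ≠ 0 := by positivity
        field_simp
        norm_num
    _ ≤ _ := by gcongr

end

end Pool.Agent.Y306.HRT
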