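import Pool.Agent.Y306.HRT.Fourier

set_option autoImplicit false

open Complex Filter Topology Set MeasureTheory intervalIntegral

namespace Pool.Agent.Y306.HRT

noncomputable section

/-- partial Fourier coefficient -/
def c1 (b : ℝ → ℝ → ℂ) (k : ℤ) (t : ℝ) : ℂ := ∫ x in (0 : ℝ)..1, b x t * E (-(k * x))

/-- double Fourier coefficient -/
def c2 (b : ℝ → ℝ → ℂ) (k l : ℤ) : ℂ := ∫ t in (0 : ℝ)..1, c1 b k t * E (-(l * t))

lemma continuous_E_real (k : ℤ) : Continuous (fun x : ℝ => E (-(k * x))) :=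
  continuous_E.comp (by fun_prop)

lemma continuous_c1 {b : ℝ → ℝ → ℂ} (hb : Continuous (fun p : ℝ × ℝ => b p.1 p.2)) (k : ℤ) :
    Continuous (c1 b k) := by
  unfold c1
  refine intervalIntegral.continuous_parametric_intervalIntegral_of_continuous' (f := fun t x => b x t * E (-(k * x))) ?_ 0 1
  exact (hb.comp (by fun_prop : Continuous (fun p : ℝ × ℝ => (p.2, p.1)))).mul
    ((continuous_E_real k).comp continuous_snd)

lemma norm_E_neg_int_mul (k : ℤ) (x : ℝ) : ‖E (-(k * x))‖ = 1 := by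
  rw [norm_E]; simp

lemma norm_E_int_mul (k : ℤ) (x : ℝ) : ‖E (k * x)‖ = 1 := by
  rw [norm_E]; simp

lemma c2_swap {b : ℝ → ℝ → ℂ} (hb : Continuous (fun p : ℝ × ℝ => b p.1 p.2)) (k l : ℤ) :
    c2 b k l = ∫ x in (0 : ℝ)..1, (∫ t in (0 : ℝ)..1, b x t * E (-(l * t))) * E (-(k * x)) := by
  unfold c2 c1
  have h1 : Continuous (fun p : ℝ × ℝ => b p.2 p.1 * E (-(k * p.2)) * E (-(l * p.1))) :=
    ((hb.comp (by fun_prop : Continuous (fun p : ℝ × ℝ => (p.2, p.1)))).mul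
      ((continuous_E_real k).comp continuous_snd)).mul ((continuous_E_real l).comp continuous_fst)
  have h2 : (∫ t in (0 : ℝ)..1, (∫ x in (0 : ℝ)..1, b x t * E (-(k * x))) * E (-(l * t))) =
      ∫ t in (0 : ℝ)..1, ∫ x in (0 : ℝ)..1, b x t * E (-(k * x)) * E (-(l * t)) := by
    refine integral_congr (fun t _ => ?_)
    exact (intervalIntegral.integral_mul_const _ _).symm
  have h3 : IntegrableOn (Function.uncurry
      (fun t x : ℝ => b x t * E (-(k * x)) * E (-(l * t)))) (uIoc (0 : ℝ) 1 ×ˢ uIoc (0 : ℝ) 1) := by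
    have h4 : IntegrableOn (Function.uncurry
      (fun t x : ℝ => b x t * E (-(k * x)) * E (-(l * t)))) (Icc (0 : ℝ) 1 ×ˢ Icc (0 : ℝ) 1) :=
      ContinuousOn.integrableOn_compact (isCompact_Icc.prod isCompact_Icc) h1.continuousOn
    refine h4.mono_set (prod_mono ?_ ?_) <;>
    · rw [uIoc_of_le zero_le_one]; exact Ioc_subset_Icc_self
  rw [h2, intervalIntegral_intervalIntegral_swap h3]
  refine integral_congr (fun x _ => ?_)
  rw [← intervalIntegral.integral_mul_const]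
  refine integral_congr (fun t _ => ?_)
  ring

lemma norm_int_le {f : ℝ → ℂ} {C : ℝ} (h : ∀ x, ‖f x‖ ≤ C) (k : ℤ) :
    ‖∫ x in (0 : ℝ)..1, f x * E (-(k * x))‖ ≤ C := by
  have := intervalIntegral.norm_integral_le_of_norm_le_const (a := (0 : ℝ)) (b := 1)
    (C := C) (f := fun x : ℝ => f x * E (-(k * x)))
    (fun x _ => by rw [norm_mul, norm_E_neg_int_mul, mul_one]; exact h x)
  simpa using this

lemma summable_q {q : ℝ} (h0 : 0 ≤ q) (h1 : q < 1) : Summable (fun n : ℤ => q ^ n.natAbs) :=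
  (summable_geo h0 h1).summable

section

variable {b : ℝ → ℝ → ℂ} {M q : ℝ}

lemma c2_bound (hb : Continuous (fun p : ℝ × ℝ => b p.1 p.2)) (hM : 0 ≤ M) (hq0 : 0 ≤ q)
    (h1 : ∀ k t, ‖c1 b k t‖ ≤ M * (q ^ k.natAbs) ^ 2)
    (h2 : ∀ (l : ℤ) (x : ℝ), ‖∫ t in (0 : ℝ)..1, b x t * E (-(l * t))‖ ≤ M * (q ^ l.natAbs) ^ 2)
    (k l : ℤ) : ‖c2 b k l‖ ≤ M * (q ^ k.natAbs * q ^ l.natAbs) := by
  have e1 : ‖c2 b k l‖ ≤ M * (q ^ k.natAbs) ^ 2 := norm_int_le (h1 k) l
  have e2 : ‖c2 b k l‖ ≤ M * (q ^ l.natAbs) ^ 2 := by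
    rw [c2_swap hb]
    exact norm_int_le (h2 l) k
  have p1 : 0 ≤ q ^ k.natAbs := by positivity
  have p2 : 0 ≤ q ^ l.natAbs := by positivity
  rcases le_total (q ^ k.natAbs) (q ^ l.natAbs) with h | h
  · refine e1.trans ?_
    rw [sq]
    gcongr
  · refine e2.trans ?_
    rw [sq]
    gcongr

lemma summable_qq (M : ℝ) {q : ℝ} (hq0 : 0 ≤ q) (hq1 : q < 1) :
    Summable (fun p : ℤ × ℤ => M * (q ^ p.1.natAbs * q ^ p.2.natAbs)) := by
  refine Summable.mul_left M ?_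
  exact (summable_q hq0 hq1).mul_of_nonneg (summable_q hq0 hq1) (fun n => by positivity)
    (fun n => by positivity)

lemma hasSum_double (hb : Continuous (fun p : ℝ × ℝ => b p.1 p.2))
    (hb1 : ∀ x t, b (x + 1) t = b x t) (hb2 : ∀ x t, b x (t + 1) = b x t)
    (hM : 0 ≤ M) (hq0 : 0 ≤ q) (hq1 : q < 1)
    (h1 : ∀ k t, ‖c1 b k t‖ ≤ M * (q ^ k.natAbs) ^ 2)
    (h2 : ∀ (l : ℤ) (x : ℝ), ‖∫ t in (0 : ℝ)..1, b x t * E (-(l * t))‖ ≤ M * (q ^ l.natAbs) ^ 2)
    (x t : ℝ) :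
    HasSum (fun p : ℤ × ℤ => c2 b p.1 p.2 * (E (p.1 * x) * E (p.2 * t))) (b x t) := by
  have hbd : ∀ p : ℤ × ℤ, ‖c2 b p.1 p.2 * (E (p.1 * x) * E (p.2 * t))‖ ≤
      M * (q ^ p.1.natAbs * q ^ p.2.natAbs) := by
    intro p
    rw [norm_mul, norm_mul, norm_E_int_mul, norm_E_int_mul, mul_one, mul_one]
    exact c2_bound hb hM hq0 h1 h2 p.1 p.2
  have hsum : Summable (fun p : ℤ × ℤ => c2 b p.1 p.2 * (E (p.1 * x) * E (p.2 * t))) :=
    Summable.of_norm_bounded (summable_qq M hq0 hq1) hbd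
  have hc1per : ∀ k t, c1 b k (t + 1) = c1 b k t := by
    intro k t
    unfold c1
    simp only [hb2]
  have hfib : ∀ k : ℤ, HasSum (fun l : ℤ => c2 b k l * (E (k * x) * E (l * t)))
      (c1 b k t * E (k * x)) := by
    intro k
    have h3 : Summable (fun l : ℤ => ∫ t in (0 : ℝ)..1, c1 b k t * E (-(l * t))) := by
      refine Summable.of_norm_bounded (g := fun l : ℤ => M * (q ^ k.natAbs * q ^ l.natAbs)) ?_
        (fun l => c2_bound hb hM hq0 h1 h2 k l)
      exact ((summable_q hq0 hq1).mul_left _).mul_left _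
    have h4 := fourier_inv (continuous_c1 hb k) (hc1per k) h3 t
    have h5 := h4.mul_right (E (k * x))
    refine h5.congr_fun ?_ |> fun h => h
    intro l
    show c2 b k l * (E (k * x) * E (l * t)) = c2 b k l * E (l * t) * E (k * x)
    ring
  have h6 := hsum.hasSum.prod_fiberwise hfib
  have h7 : Summable (fun k : ℤ => ∫ x in (0 : ℝ)..1, b x t * E (-(k * x))) := by
    refine Summable.of_norm_bounded (g := fun k : ℤ => M * (q ^ k.natAbs) ^ 2) ?_
        (fun k => h1 k t)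
    refine Summable.mul_left _ ?_
    have : Summable (fun n : ℤ => (q ^ 2) ^ n.natAbs) := summable_q (by positivity) (by nlinarith)
    refine this.congr (fun n => ?_)
    rw [← pow_mul, ← pow_mul, mul_comm]
  have h8 := fourier_inv (f := fun x => b x t)
    (hb.comp (by fun_prop : Continuous (fun x : ℝ => (x, t)))) (fun x => hb1 x t) h7 x
  have h9 := h6.unique h8
  rw [← h9]
  exact hsum.hasSum

end

end

end Pool.Agent.Y306.HRT
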