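import Pool.Agent.Y306.HRT.Weier

set_option autoImplicit false

open Complex Filter Topology Set

namespace Pool.Agent.Y306.HRT

noncomputable section

lemma real_bound (f : ℝ → ℝ → ℝ) (hf : Continuous (fun p : ℝ × ℝ => f p.1 p.2))
    (h1 : ∀ s t, f (s + 1) t = f s t) (h2 : ∀ s t, f s (t + 1) = f s t) :
    ∃ C, ∀ s t, f s t ≤ C := by
  have hc : IsCompact (Icc (0 : ℝ) 1 ×ˢ Icc (0 : ℝ) 1) := isCompact_Icc.prod isCompact_Icc
  obtain ⟨C, hC⟩ := hc.exists_bound_of_continuousOn hf.continuousOn
  refine ⟨C, fun s t => ?_⟩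
  have e1 : f s t = f (Int.fract s) t := by
    have hp : Function.Periodic (fun s => f s t) 1 := fun s => h1 s t
    have := hp.int_mul ⌊s⌋ (Int.fract s)
    simp only [mul_one, Int.fract_add_floor] at this
    exact this
  have e2 : f (Int.fract s) t = f (Int.fract s) (Int.fract t) := by
    have hp : Function.Periodic (fun t => f (Int.fract s) t) 1 := fun t => h2 _ t
    have := hp.int_mul ⌊t⌋ (Int.fract t)
    simp only [mul_one, Int.fract_add_floor] at this
    exact this
  rw [e1, e2]
  have := hC (Int.fract s, Int.fract t) ⟨⟨Int.fract_nonneg _, (Int.fract_lt_one _).le⟩,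
    ⟨Int.fract_nonneg _, (Int.fract_lt_one _).le⟩⟩
  exact (le_abs_self _).trans this

lemma continuousAt_ch {y : ℂ × ℂ} (h : Ph y ≠ 0) : ContinuousAt ch y := by
  unfold ch
  exact differentiable_ths.continuous.continuousAt.div differentiable_Ph.continuous.continuousAt h

lemma norm_E_real (t : ℝ) : ‖E t‖ = 1 := by
  rw [norm_E]; simp

lemma norm_E_neg_real (t : ℝ) : ‖E (-t)‖ = 1 := by
  rw [norm_E]; simp

lemma ali_left (u v : ℝ) (y : ℂ × ℂ) : ali u v (y + (1, 0)) = ali u v y := by
  unfold ali
  rw [show y + (1, 0) - ta u v = (y - ta u v) + (1, 0) by abel, th_qp.left, ch_qp.left]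
  have e1 : (y + (1, 0)).1 = y.1 + 1 := by simp
  have e2 : (y - ta u v).2 = y.2 - v := by simp [ta]
  rw [e1, e2, mul_add, mul_one, E_add, sub_eq_add_neg, E_add]
  have h1 := E_mul_neg (v : ℂ)
  have h2 := E_mul_neg y.2
  linear_combination (E (v * y.1) * th (y - ta u v) * ch y * E y.2 * E (-y.2)) * h1 +
    (E (v * y.1) * th (y - ta u v) * ch y) * h2

lemma ali_right (u v : ℝ) (y : ℂ × ℂ) : ali u v (y + (0, 1)) = ali u v y := by
  unfold ali
  rw [show y + (0, 1) - ta u v = (y - ta u v) + (0, 1) by abel, th_qp.right, ch_qp.right]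
  simp

lemma bei_left (u v : ℝ) (y : ℂ × ℂ) : bei u v (y + (1, 0)) = bei u v y := by
  unfold bei
  rw [show y + (1, 0) - ta u v = (y - ta u v) + (1, 0) by abel,
    show y + (1, 0) - hf = (y - hf) + (1, 0) by abel, th_qp.left, ch_qp.left]
  have e1 : (y + (1, 0)).1 = y.1 + 1 := by simp
  have e2 : (y - ta u v).2 = y.2 - v := by simp [ta]
  have e3 : (y - hf).2 = y.2 := by simp [hf]
  rw [e1, e2, e3, mul_add, mul_one, E_add, sub_eq_add_neg, E_add]
  have h1 := E_mul_neg (v : ℂ)
  have h2 := E_mul_neg y.2
  linear_combination (E (v * y.1) * th (y - ta u v) * ch (y - hf) * E y.2 * E (-y.2)) * h1 +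
    (E (v * y.1) * th (y - ta u v) * ch (y - hf)) * h2

lemma bei_right (u v : ℝ) (y : ℂ × ℂ) : bei u v (y + (0, 1)) = bei u v y := by
  unfold bei
  rw [show y + (0, 1) - ta u v = (y - ta u v) + (0, 1) by abel,
    show y + (0, 1) - hf = (y - hf) + (0, 1) by abel, th_qp.right, ch_qp.right]
  simp

lemma continuousAt_ali (u v s t : ℝ) : ContinuousAt (ali u v) ((s : ℂ), (t : ℂ)) := by
  unfold ali
  have h1 : Continuous (fun y : ℂ × ℂ => E (v * y.1) * th (y - ta u v)) :=
    (continuous_E.comp (by fun_prop)).mul (differentiable_th.continuous.comp (by fun_prop))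
  exact h1.continuousAt.mul (continuousAt_ch (Ph_real_ne s t))

lemma continuousAt_bei (u v s t : ℝ) : ContinuousAt (bei u v) ((s : ℂ), (t : ℂ)) := by
  unfold bei
  have h1 : Continuous (fun y : ℂ × ℂ => E (v * y.1) * th (y - ta u v)) :=
    (continuous_E.comp (by fun_prop)).mul (differentiable_th.continuous.comp (by fun_prop))
  refine h1.continuousAt.mul ?_
  have h2 : ContinuousAt ch (((s : ℂ), (t : ℂ)) - hf) := by
    apply continuousAt_ch
    rw [Ph_sub_hf]
    exact Ph_real_ne s t
  exact ContinuousAt.comp (f := fun y : ℂ × ℂ => y - hf) (g := ch) h2 (by fun_prop)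

lemma exists_K : ∃ K : ℝ, 1 ≤ K ∧ ∀ s t : ℝ, ‖th ((s : ℂ), (t : ℂ))‖ < K ∧
    ‖ch ((s : ℂ), (t : ℂ))‖ < K := by
  obtain ⟨C1, hC1⟩ := real_bound (fun s t => ‖th ((s : ℂ), (t : ℂ))‖)
    (by
      have := differentiable_th.continuous
      exact (this.comp (by fun_prop : Continuous (fun p : ℝ × ℝ => ((p.1 : ℂ), (p.2 : ℂ))))).norm)
    (by
      intro s t
      have := th_left s t
      push_cast
      rw [this, norm_mul, norm_E_real, one_mul])
    (by
      intro s t
      have := th_right s t
      push_cast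
      rw [this])
  obtain ⟨C2, hC2⟩ := real_bound (fun s t => ‖ch ((s : ℂ), (t : ℂ))‖)
    (by
      rw [continuous_iff_continuousAt]
      intro p
      have h1 := continuousAt_ch (Ph_real_ne p.1 p.2)
      exact (ContinuousAt.comp (f := fun p : ℝ × ℝ => ((p.1 : ℂ), (p.2 : ℂ))) (g := ch) h1
        (by fun_prop)).norm)
    (by
      intro s t
      have := ch_qp.left ((s : ℂ), (t : ℂ))
      simp only [Prod.mk_add_mk, add_zero] at this
      push_cast
      rw [this, norm_mul, norm_E_neg_real, one_mul])
    (by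
      intro s t
      have := ch_qp.right ((s : ℂ), (t : ℂ))
      simp only [Prod.mk_add_mk, add_zero] at this
      push_cast
      rw [this])
  refine ⟨max 1 (max C1 C2 + 1), le_max_left _ _, fun s t => ⟨?_, ?_⟩⟩
  · have h1 := hC1 s t
    have h2 := le_max_left C1 C2
    have h3 := le_max_right 1 (max C1 C2 + 1)
    linarith
  · have h1 := hC2 s t
    have h2 := le_max_right C1 C2
    have h3 := le_max_right 1 (max C1 C2 + 1)
    linarith

lemma om_ratio_left (y z : ℂ × ℂ) (h : y.2.im = z.2.im) (a : ℝ) :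
    om (y + (1, 0)) * a / om (z + (1, 0)) = om y * a / om z := by
  have e : ‖E (-y.2)‖ = ‖E (-z.2)‖ := by
    rw [norm_E, norm_E]; simp [h]
  rw [om_left' y, om_left' z, e]
  have h1 : ‖E (-z.2)‖ ≠ 0 := by rw [norm_ne_zero_iff]; exact E_ne _
  have h2 := (om_pos z).ne'
  field_simp

theorem exists_setup (u v : ℝ) : ∃ (F G : Finset (Fin 2 → ℤ)) (A B : (Fin 2 → ℤ) → ℂ)
    (ρ K δ : ℝ), Setup u v (trig F A) (trig G B) ρ K δ := by
  obtain ⟨K, hK1, hK⟩ := exists_K
  set δ : ℝ := 1 / (100 * K ^ 2) with hδ
  have hδ0 : 0 < δ := by positivity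
  obtain ⟨F, A, hA⟩ := trig_approx (fun s t => ali u v ((s : ℂ), (t : ℂ)))
    (by
      rw [continuous_iff_continuousAt]
      intro p
      exact ContinuousAt.comp (f := fun p : ℝ × ℝ => ((p.1 : ℂ), (p.2 : ℂ))) (g := ali u v)
        (continuousAt_ali u v p.1 p.2) (by fun_prop))
    (by
      intro s t
      have := ali_left u v ((s : ℂ), (t : ℂ))
      simpa using this)
    (by
      intro s t
      have := ali_right u v ((s : ℂ), (t : ℂ))
      simpa using this) (ε := δ / 4) (by positivity)
  obtain ⟨G, B, hB⟩ := trig_approx (fun s t => bei u v ((s : ℂ), (t : ℂ)))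
    (by
      rw [continuous_iff_continuousAt]
      intro p
      exact ContinuousAt.comp (f := fun p : ℝ × ℝ => ((p.1 : ℂ), (p.2 : ℂ))) (g := bei u v)
        (continuousAt_bei u v p.1 p.2) (by fun_prop))
    (by
      intro s t
      have := bei_left u v ((s : ℂ), (t : ℂ))
      simpa using this)
    (by
      intro s t
      have := bei_right u v ((s : ℂ), (t : ℂ))
      simpa using this) (ε := δ / 4) (by positivity)
  -- the error function
  set err : ℂ × ℂ → ℝ := fun y => om y * ‖E (-(v * (y.1 + u)))‖ *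
    (‖trig F A (y + ta u v) - ali u v (y + ta u v)‖ / om (y + ta u v) +
      ‖trig G B (y + ta u v) - bei u v (y + ta u v)‖ / om (y + ta u v - hf)) with herr
  have err_left : ∀ y, err (y + (1, 0)) = err y := by
    intro y
    simp only [herr]
    rw [show y + (1, 0) + ta u v = (y + ta u v) + (1, 0) by abel,
      show (y + ta u v) + (1, 0) - hf = (y + ta u v - hf) + (1, 0) by abel,
      trig_left, trig_left, ali_left, bei_left]
    have e1 : ‖E (-(v * ((y + (1, 0)).1 + u)))‖ = ‖E (-(v * (y.1 + u)))‖ := by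
      rw [norm_E, norm_E]; simp
    rw [e1]
    set c := ‖E (-(v * (y.1 + u)))‖
    set d1 := ‖trig F A (y + ta u v) - ali u v (y + ta u v)‖
    set d2 := ‖trig G B (y + ta u v) - bei u v (y + ta u v)‖
    have r1 := om_ratio_left y (y + ta u v) (by simp [ta]) (c * d1)
    have r2 := om_ratio_left y (y + ta u v - hf) (by simp [ta, hf]) (c * d2)
    calc _ = om (y + (1, 0)) * (c * d1) / om (y + ta u v + (1, 0)) +
          om (y + (1, 0)) * (c * d2) / om (y + ta u v - hf + (1, 0)) := by ring
      _ = _ := by rw [r1, r2]; ring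
  have err_right : ∀ y, err (y + (0, 1)) = err y := by
    intro y
    simp only [herr]
    rw [show y + (0, 1) + ta u v = (y + ta u v) + (0, 1) by abel,
      show (y + ta u v) + (0, 1) - hf = (y + ta u v - hf) + (0, 1) by abel,
      trig_right, trig_right, ali_right, bei_right, om_right, om_right, om_right]
    simp
  obtain ⟨ρ, hρ, hG⟩ := tube (fun y => Ph y ≠ 0 ∧ om y * ‖th y‖ < K ∧ ‖ch y‖ / om y < K ∧ err y < δ)
    (by
      rintro y ⟨h1, h2, h3, h4⟩
      refine ⟨by rwa [Ph_left], ?_, ?_, by rwa [err_left]⟩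
      · rw [th_qp.left, norm_mul, ← mul_assoc, om_left]; exact h2
      · rw [ch_qp.left, norm_mul, om_left']
        have h5 : ‖E (-y.2)‖ ≠ 0 := by rw [norm_ne_zero_iff]; exact E_ne _
        have h6 := (om_pos y).ne'
        convert h3 using 1
        field_simp)
    (by
      rintro y ⟨h1, h2, h3, h4⟩
      set z := y - (1, 0) with hz
      have hy : y = z + (1, 0) := by rw [hz, sub_add_cancel]
      rw [hy] at h1 h2 h3 h4
      rw [Ph_left] at h1
      rw [err_left] at h4
      refine ⟨h1, ?_, ?_, h4⟩
      · rw [th_qp.left, norm_mul, ← mul_assoc, om_left] at h2; exact h2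
      · rw [ch_qp.left, norm_mul, om_left'] at h3
        have h5 : ‖E (-z.2)‖ ≠ 0 := by rw [norm_ne_zero_iff]; exact E_ne _
        have h6 := (om_pos z).ne'
        convert h3 using 1
        field_simp)
    (by
      rintro y ⟨h1, h2, h3, h4⟩
      refine ⟨by rwa [Ph_right], ?_, ?_, by rwa [err_right]⟩
      · rw [th_qp.right, om_right]; exact h2
      · rw [ch_qp.right, om_right]; exact h3)
    (by
      rintro y ⟨h1, h2, h3, h4⟩
      set z := y - (0, 1) with hz
      have hy : y = z + (0, 1) := by rw [hz, sub_add_cancel]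
      rw [hy] at h1 h2 h3 h4
      rw [Ph_right] at h1
      rw [err_right] at h4
      refine ⟨h1, ?_, ?_, h4⟩
      · rw [th_qp.right, om_right] at h2; exact h2
      · rw [ch_qp.right, om_right] at h3; exact h3)
    (by
      intro s t
      have hPh := Ph_real_ne s t
      have c1 : ContinuousAt Ph ((s : ℂ), (t : ℂ)) := differentiable_Ph.continuous.continuousAt
      have c2 : ContinuousAt (fun y => om y * ‖th y‖) ((s : ℂ), (t : ℂ)) :=
        (continuous_om.mul differentiable_th.continuous.norm).continuousAt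
      have c3 : ContinuousAt (fun y => ‖ch y‖ / om y) ((s : ℂ), (t : ℂ)) :=
        (continuousAt_ch hPh).norm.div continuous_om.continuousAt (om_pos _).ne'
      have hta : ((s : ℂ), (t : ℂ)) + ta u v = (((s + u : ℝ) : ℂ), ((t + v : ℝ) : ℂ)) := by
        simp [ta]
      have c5 : ContinuousAt (fun y => ali u v (y + ta u v)) ((s : ℂ), (t : ℂ)) := by
        refine ContinuousAt.comp (f := fun y : ℂ × ℂ => y + ta u v) (g := ali u v) ?_ (by fun_prop)
        rw [hta]
        exact continuousAt_ali u v _ _
      have c6 : ContinuousAt (fun y => bei u v (y + ta u v)) ((s : ℂ), (t : ℂ)) := by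
        refine ContinuousAt.comp (f := fun y : ℂ × ℂ => y + ta u v) (g := bei u v) ?_ (by fun_prop)
        rw [hta]
        exact continuousAt_bei u v _ _
      have c7 : Continuous (fun y => trig F A (y + ta u v)) :=
        (differentiable_trig F A).continuous.comp (by fun_prop)
      have c8 : Continuous (fun y => trig G B (y + ta u v)) :=
        (differentiable_trig G B).continuous.comp (by fun_prop)
      have c9 : Continuous (fun y : ℂ × ℂ => om y * ‖E (-(v * (y.1 + u)))‖) :=
        continuous_om.mul (continuous_E.comp (by fun_prop)).norm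
      have c10 : Continuous (fun y : ℂ × ℂ => om (y + ta u v)) := continuous_om.comp (by fun_prop)
      have c11 : Continuous (fun y : ℂ × ℂ => om (y + ta u v - hf)) :=
        continuous_om.comp (by fun_prop)
      have c4 : ContinuousAt err ((s : ℂ), (t : ℂ)) := by
        simp only [herr]
        refine c9.continuousAt.mul (ContinuousAt.add ?_ ?_)
        · exact (c7.continuousAt.sub c5).norm.div c10.continuousAt (om_pos _).ne'
        · exact (c8.continuousAt.sub c6).norm.div c11.continuousAt (om_pos _).ne'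
      have v2 : om ((s : ℂ), (t : ℂ)) * ‖th ((s : ℂ), (t : ℂ))‖ < K := by
        rw [om_real, one_mul]; exact (hK s t).1
      have v3 : ‖ch ((s : ℂ), (t : ℂ))‖ / om ((s : ℂ), (t : ℂ)) < K := by
        rw [om_real, div_one]; exact (hK s t).2
      have v4 : err ((s : ℂ), (t : ℂ)) < δ := by
        simp only [herr]
        have e1 : ‖E (-((v : ℂ) * ((s : ℂ) + u)))‖ = 1 := by
          rw [norm_E]; simp
        rw [hta, om_real, om_real, real_sub_hf, om_real, e1, one_mul, one_mul, div_one, div_one,
          norm_sub_rev, norm_sub_rev (trig G B _)]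
        have h1 := hA (s + u) (t + v)
        have h2 := hB (s + u) (t + v)
        linarith
      filter_upwards [c1.eventually_ne hPh, c2.eventually_lt_const v2, c3.eventually_lt_const v3,
        c4.eventually_lt_const v4] with y h1 h2 h3 h4
      exact ⟨h1, h2, h3, h4⟩)
  refine ⟨F, G, A, B, ρ, K, δ, ?_⟩
  constructor
  · exact hρ
  · exact hK1
  · exact hδ0.le
  · rw [hδ]
    have : 0 < K := by linarith
    field_simp
    norm_num
  · exact trig_left F A
  · exact trig_right F A
  · exact trig_left G B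
  · exact trig_right G B
  · exact differentiable_trig F A
  · exact differentiable_trig G B
  · exact fun y hy => (hG y hy).1
  · exact fun y hy => (hG y hy).2.1.le
  · intro y hy
    have := (hG y hy).2.2.1
    rw [div_lt_iff₀ (om_pos y)] at this
    exact this.le
  · exact fun y hy => (hG y hy).2.2.2.le

end

end Pool.Agent.Y306.HRT
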