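import Pool.Agent.Y306.HRT.Limit
import Pool.Agent.Y306.Four

set_option autoImplicit false

open Complex Filter Topology Set MeasureTheory intervalIntegral

namespace Pool.Agent.Y306.HRT

noncomputable section

lemma mem_St_of_real {ρ : ℝ} (hρ : 0 < ρ) (x : ℝ) : (x : ℂ) ∈ St ρ := by
  simp [St, hρ]

/-- contour shift -/
lemma coeff_bound {F : ℂ → ℂ} {ρ r M : ℝ} (hr : 0 ≤ r) (hrρ : r < ρ)
    (hF : DifferentiableOn ℂ F (St ρ)) (hper : ∀ z ∈ St ρ, F (z + 1) = F z)
    (hM : ∀ z ∈ St ρ, ‖F z‖ ≤ M) (k : ℤ) :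
    ‖∫ x in (0 : ℝ)..1, F x * E (-(k * x))‖ ≤ M * Real.exp (-(2 * Real.pi * r * |(k : ℝ)|)) := by
  obtain ⟨η, hη1, hη2⟩ : ∃ η : ℝ, |η| ≤ r ∧ (k : ℝ) * η = -(r * |(k : ℝ)|) := by
    rcases le_total 0 (k : ℝ) with h | h
    · exact ⟨-r, by rw [abs_neg, abs_of_nonneg hr], by rw [abs_of_nonneg h]; ring⟩
    · exact ⟨r, by rw [abs_of_nonneg hr], by rw [abs_of_nonpos h]; ring⟩
  set G : ℂ → ℂ := fun z => F z * E (-(k * z)) with hG
  have hGd : DifferentiableOn ℂ G (St ρ) :=
    hF.mul (differentiable_E.comp (by fun_prop : Differentiable ℂ (fun z : ℂ => -(k * z)))).differentiableOn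
  have hGp : ∀ z ∈ St ρ, G (z + 1) = G z := by
    intro z hz
    simp only [hG]
    rw [hper z hz, mul_add, mul_one, neg_add, E_add]
    have : E (-(k : ℂ)) = 1 := by
      have := E_int (-k)
      push_cast at this
      exact this
    rw [this, mul_one]
  have hsub : (uIcc (0 : ℂ).re ((1 : ℂ) + η * I).re ×ℂ uIcc (0 : ℂ).im ((1 : ℂ) + η * I).im) ⊆
      St ρ := by
    rintro z ⟨-, hz2⟩
    simp only [Complex.zero_im, Complex.add_im, Complex.one_im, Complex.mul_im, Complex.ofReal_re,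
      Complex.I_im, mul_one, Complex.ofReal_im, Complex.I_re, mul_zero, add_zero, zero_add,
      mem_preimage] at hz2
    have h3 : |z.im| ≤ |η| := by
      rcases le_total 0 η with h | h
      · rw [uIcc_of_le h] at hz2
        rw [abs_of_nonneg h, abs_of_nonneg hz2.1]; exact hz2.2
      · rw [uIcc_of_ge h] at hz2
        rw [abs_of_nonpos h, abs_of_nonpos hz2.2]; linarith [hz2.1]
    show |z.im| < ρ
    linarith
  have h1 := Complex.integral_boundary_rect_eq_zero_of_differentiableOn G 0 (1 + η * I)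
    (hGd.mono hsub)
  simp only [Complex.zero_re, Complex.zero_im, Complex.add_re, Complex.one_re, Complex.mul_re,
    Complex.ofReal_re, Complex.I_re, mul_zero, Complex.ofReal_im, Complex.I_im, mul_one, sub_zero,
    add_zero, Complex.add_im, Complex.one_im, Complex.mul_im, zero_add, Complex.ofReal_zero,
    zero_mul, Complex.ofReal_one] at h1
  have h2 : (∫ y : ℝ in (0 : ℝ)..η, G (1 + y * I)) = ∫ y : ℝ in (0 : ℝ)..η, G (y * I) := by
    refine integral_congr (fun y hy => ?_)
    rw [add_comm]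
    apply hGp
    have h3 : |y| ≤ |η| := by
      rcases le_total 0 η with h | h
      · rw [uIcc_of_le h] at hy
        rw [abs_of_nonneg h, abs_of_nonneg hy.1]; exact hy.2
      · rw [uIcc_of_ge h] at hy
        rw [abs_of_nonpos h, abs_of_nonpos hy.2]; linarith [hy.1]
    show |((y : ℂ) * I).im| < ρ
    simp
    linarith
  rw [h2] at h1
  have h3 : (∫ x : ℝ in (0 : ℝ)..1, G x) = ∫ x : ℝ in (0 : ℝ)..1, G (x + η * I) := by
    linear_combination h1
  have h4 : (∫ x in (0 : ℝ)..1, F x * E (-(k * x))) = ∫ x : ℝ in (0 : ℝ)..1, G (x + η * I) := by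
    rw [← h3]
  rw [h4]
  have h5 : ∀ x : ℝ, ‖G (x + η * I)‖ ≤ M * Real.exp (-(2 * Real.pi * r * |(k : ℝ)|)) := by
    intro x
    simp only [hG]
    rw [norm_mul]
    have hmem : (x : ℂ) + η * I ∈ St ρ := by
      show |((x : ℂ) + η * I).im| < ρ
      simp
      linarith
    have e : ‖E (-(k * ((x : ℂ) + η * I)))‖ = Real.exp (-(2 * Real.pi * r * |(k : ℝ)|)) := by
      rw [norm_E]
      congr 1
      have : (-((k : ℂ) * ((x : ℂ) + η * I))).im = -((k : ℝ) * η) := by
        simp
      rw [this, hη2]; ring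
    rw [e]
    gcongr
    exact hM _ hmem
  have h6 := intervalIntegral.norm_integral_le_of_norm_le_const (a := (0 : ℝ)) (b := 1)
    (C := M * Real.exp (-(2 * Real.pi * r * |(k : ℝ)|))) (f := fun x : ℝ => G (x + η * I))
    (fun x _ => h5 x)
  simpa using h6

/-- one-dimensional Fourier inversion -/
lemma fourier_inv {f : ℝ → ℂ} (hf : Continuous f) (hper : ∀ x, f (x + 1) = f x)
    (hs : Summable (fun k : ℤ => ∫ x in (0 : ℝ)..1, f x * E (-(k * x)))) (x : ℝ) :
    HasSum (fun k : ℤ => (∫ x in (0 : ℝ)..1, f x * E (-(k * x))) * E (k * x)) (f x) := by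
  have hp : Function.Periodic f 1 := hper
  have hq : IsOpenQuotientMap (fun x : ℝ => (x : AddCircle (1 : ℝ))) :=
    QuotientAddGroup.isOpenQuotientMap_mk
  set G : C(AddCircle (1 : ℝ), ℂ) := ⟨hp.lift, by
    rw [← hq.continuous_comp_iff]
    exact hf⟩ with hG
  have hGx : ∀ x : ℝ, G (x : AddCircle (1 : ℝ)) = f x := fun x => rfl
  have hcoeff : ∀ k : ℤ, fourierCoeff G k = ∫ x in (0 : ℝ)..1, f x * E (-(k * x)) := by
    intro k
    rw [fourierCoeff_eq_intervalIntegral _ _ 0]
    simp only [zero_add, div_one, one_smul, smul_eq_mul]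
    refine integral_congr (fun y _ => ?_)
    rw [hGx, fourier_coe_apply, mul_comm]
    congr 1
    unfold E
    congr 1
    push_cast
    ring
  have h1 : Summable (fourierCoeff G) := by
    refine hs.congr (fun k => (hcoeff k).symm)
  have h2 := has_pointwise_sum_fourier_series_of_summable h1 (x : AddCircle (1 : ℝ))
  rw [hGx] at h2
  refine h2.congr_fun ?_ |> fun h => h
  intro k
  rw [hcoeff, smul_eq_mul, fourier_coe_apply]
  congr 1
  unfold E
  congr 1
  push_cast
  ring

end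

end Pool.Agent.Y306.HRT
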