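import Pool.Agent.Y306.HRT.Tube

set_option autoImplicit false

open Complex Filter Topology Set

namespace Pool.Agent.Y306.HRT

noncomputable section

/-- pairing with the dual section -/
def pair (W : ℂ × ℂ → ℂ) (y : ℂ × ℂ) : ℂ := ch y * W y + ch (y - hf) * W (y - hf)

lemma pair_hf {W : ℂ × ℂ → ℂ} (hW : QP W) (y : ℂ × ℂ) : pair W (y + hf) = pair W y := by
  unfold pair
  rw [add_sub_cancel_right, add_hf_eq, ch_qp.left, hW.left]
  have := E_neg_mul (y - hf).2
  linear_combination (ch (y - hf) * W (y - hf)) * this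

lemma pair_left {W : ℂ × ℂ → ℂ} (hW : QP W) (y : ℂ × ℂ) : pair W (y + (1, 0)) = pair W y := by
  rw [← hf_add_hf, ← add_assoc, pair_hf hW, pair_hf hW]

lemma pair_right {W : ℂ × ℂ → ℂ} (hW : QP W) (y : ℂ × ℂ) : pair W (y + (0, 1)) = pair W y := by
  unfold pair
  rw [show y + (0, 1) - hf = (y - hf) + (0, 1) by abel, ch_qp.right, hW.right, ch_qp.right,
    hW.right]

lemma pair_sub_hf {W : ℂ × ℂ → ℂ} (hW : QP W) (y : ℂ × ℂ) : pair W (y - hf) = pair W y := by
  have := pair_hf hW (y - hf)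
  rw [sub_add_cancel] at this
  exact this.symm

lemma pair_sub (W W' : ℂ × ℂ → ℂ) (y : ℂ × ℂ) :
    pair (fun y => W y - W' y) y = pair W y - pair W' y := by
  unfold pair; ring

/-- translation vector -/
def ta (u v : ℝ) : ℂ × ℂ := ((u : ℂ), (v : ℂ))

/-- limiting symbol, diagonal part -/
def ali (u v : ℝ) (y : ℂ × ℂ) : ℂ := E (v * y.1) * th (y - ta u v) * ch y
/-- limiting symbol, off-diagonal part -/
def bei (u v : ℝ) (y : ℂ × ℂ) : ℂ := E (v * y.1) * th (y - ta u v) * ch (y - hf)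

/-- the operator `S⁻¹ P` -/
def Lop (u v : ℝ) (al be : ℂ × ℂ → ℂ) (W : ℂ × ℂ → ℂ) (y : ℂ × ℂ) : ℂ :=
  E (-(v * (y.1 + u))) * (al (y + ta u v) * W (y + ta u v) + be (y + ta u v) * W (y + ta u v - hf))

/-- the operator `S⁻¹ (P - P_∞)` -/
def Rop (u v : ℝ) (al be : ℂ × ℂ → ℂ) (W : ℂ × ℂ → ℂ) (y : ℂ × ℂ) : ℂ :=
  E (-(v * (y.1 + u))) * ((al (y + ta u v) - ali u v (y + ta u v)) * W (y + ta u v) +
    (be (y + ta u v) - bei u v (y + ta u v)) * W (y + ta u v - hf))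

variable {u v : ℝ} {al be : ℂ × ℂ → ℂ}

lemma Lop_eq (W : ℂ × ℂ → ℂ) (y : ℂ × ℂ) :
    Lop u v al be W y = th y * pair W (y + ta u v) + Rop u v al be W y := by
  unfold Lop Rop ali bei pair
  have h1 : E (-(v * (y.1 + u))) * E (v * (y + ta u v).1) = 1 := by
    have : (y + ta u v).1 = y.1 + u := by simp [ta]
    rw [this]
    exact E_neg_mul _
  rw [add_sub_cancel_right]
  linear_combination (th y * ch (y + ta u v) * W (y + ta u v) +
    th y * ch (y + ta u v - hf) * W (y + ta u v - hf)) * h1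

lemma Rop_sub (W W' : ℂ × ℂ → ℂ) (y : ℂ × ℂ) :
    Rop u v al be (fun y => W y - W' y) y = Rop u v al be W y - Rop u v al be W' y := by
  unfold Rop; ring

lemma Lop_qp (h1 : ∀ y, al (y + (1, 0)) = al y) (h2 : ∀ y, al (y + (0, 1)) = al y)
    (h3 : ∀ y, be (y + (1, 0)) = be y) (h4 : ∀ y, be (y + (0, 1)) = be y)
    {W : ℂ × ℂ → ℂ} (hW : QP W) : QP (Lop u v al be W) where
  left y := by
    unfold Lop
    rw [show y + (1, 0) + ta u v = (y + ta u v) + (1, 0) by abel,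
      show (y + ta u v) + (1, 0) - hf = (y + ta u v - hf) + (1, 0) by abel, h1, h3, hW.left,
      hW.left]
    have e1 : (y + ta u v).2 = y.2 + v := by simp [ta]
    have e2 : (y + ta u v - hf).2 = y.2 + v := by simp [ta, hf]
    have e3 : (y + (1, 0)).1 = y.1 + 1 := by simp
    rw [e1, e2, e3, E_add, show (-((v : ℂ) * (y.1 + 1 + u))) = (-((v : ℂ) * (y.1 + u))) + (-v) by ring,
      E_add]
    have h5 := E_neg_mul (v : ℂ)
    linear_combination (E (-(v * (y.1 + u))) * E y.2 * (al (y + ta u v) * W (y + ta u v) +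
      be (y + ta u v) * W (y + ta u v - hf))) * h5
  right y := by
    unfold Lop
    rw [show y + (0, 1) + ta u v = (y + ta u v) + (0, 1) by abel,
      show (y + ta u v) + (0, 1) - hf = (y + ta u v - hf) + (0, 1) by abel, h2, h4, hW.right,
      hW.right]
    simp

variable {ρ K δ : ℝ}

lemma add_ta_mem {y : ℂ × ℂ} (hy : y ∈ D ρ) : y + ta u v ∈ D ρ := by
  simpa [D, ta] using hy

lemma sub_hf_mem {y : ℂ × ℂ} (hy : y ∈ D ρ) : y - hf ∈ D ρ := by
  simpa [D, hf] using hy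

/-- Standing assumptions for the iteration. -/
structure Setup (u v : ℝ) (al be : ℂ × ℂ → ℂ) (ρ K δ : ℝ) : Prop where
  hρ : 0 < ρ
  hK : 1 ≤ K
  hδ0 : 0 ≤ δ
  hδ : δ * K ^ 2 ≤ 1 / 100
  al_left : ∀ y, al (y + (1, 0)) = al y
  al_right : ∀ y, al (y + (0, 1)) = al y
  be_left : ∀ y, be (y + (1, 0)) = be y
  be_right : ∀ y, be (y + (0, 1)) = be y
  al_diff : Differentiable ℂ al
  be_diff : Differentiable ℂ be
  hPh : ∀ y ∈ D ρ, Ph y ≠ 0
  hth : ∀ y ∈ D ρ, om y * ‖th y‖ ≤ K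
  hch : ∀ y ∈ D ρ, ‖ch y‖ ≤ K * om y
  hR : ∀ y ∈ D ρ, om y * ‖E (-(v * (y.1 + u)))‖ *
    (‖al (y + ta u v) - ali u v (y + ta u v)‖ / om (y + ta u v) +
      ‖be (y + ta u v) - bei u v (y + ta u v)‖ / om (y + ta u v - hf)) ≤ δ

/-- The class of sections preserved by the iteration. -/
structure Good (ρ K : ℝ) (W : ℂ × ℂ → ℂ) : Prop where
  qp : QP W
  one : ∀ y ∈ D ρ, pair W y = 1
  bd : ∀ y ∈ D ρ, om y * ‖W y‖ ≤ 2 * K
  diff : DifferentiableOn ℂ W (D ρ)

lemma pair_le (hS : Setup u v al be ρ K δ) {W : ℂ × ℂ → ℂ} {B : ℝ}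
    (hB : ∀ y ∈ D ρ, om y * ‖W y‖ ≤ B) {y : ℂ × ℂ} (hy : y ∈ D ρ) :
    ‖pair W y‖ ≤ 2 * K * B := by
  have key : ∀ z ∈ D ρ, ‖ch z * W z‖ ≤ K * B := by
    intro z hz
    rw [norm_mul]
    calc ‖ch z‖ * ‖W z‖ ≤ K * om z * ‖W z‖ := by
          gcongr
          exact hS.hch z hz
      _ = K * (om z * ‖W z‖) := by ring
      _ ≤ K * B := by
          have := hS.hK
          gcongr
          exact hB z hz
  unfold pair
  refine (norm_add_le _ _).trans ?_
  have h1 := key y hy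
  have h2 := key (y - hf) (sub_hf_mem hy)
  linarith

lemma Rop_le (hS : Setup u v al be ρ K δ) {W : ℂ × ℂ → ℂ} {B : ℝ} (hB0 : 0 ≤ B)
    (hB : ∀ y ∈ D ρ, om y * ‖W y‖ ≤ B) {y : ℂ × ℂ} (hy : y ∈ D ρ) :
    om y * ‖Rop u v al be W y‖ ≤ δ * B := by
  unfold Rop
  have hb : ∀ z ∈ D ρ, ‖W z‖ ≤ B / om z := by
    intro z hz
    rw [le_div_iff₀ (om_pos z), mul_comm]
    exact hB z hz
  have h1 := hb _ (add_ta_mem (u := u) (v := v) hy)
  have h2 := hb _ (sub_hf_mem (add_ta_mem (u := u) (v := v) hy))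
  have hom := om_pos y
  rw [norm_mul]
  calc om y * (‖E (-(v * (y.1 + u)))‖ * ‖(al (y + ta u v) - ali u v (y + ta u v)) * W (y + ta u v) +
        (be (y + ta u v) - bei u v (y + ta u v)) * W (y + ta u v - hf)‖)
      ≤ om y * (‖E (-(v * (y.1 + u)))‖ * (‖al (y + ta u v) - ali u v (y + ta u v)‖ *
          (B / om (y + ta u v)) + ‖be (y + ta u v) - bei u v (y + ta u v)‖ *
          (B / om (y + ta u v - hf)))) := by
        gcongr
        refine (norm_add_le _ _).trans ?_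
        rw [norm_mul, norm_mul]
        gcongr
    _ = (om y * ‖E (-(v * (y.1 + u)))‖ *
    (‖al (y + ta u v) - ali u v (y + ta u v)‖ / om (y + ta u v) +
      ‖be (y + ta u v) - bei u v (y + ta u v)‖ / om (y + ta u v - hf))) * B := by ring
    _ ≤ δ * B := by
        gcongr
        exact hS.hR y hy

lemma pair_Lop (hS : Setup u v al be ρ K δ) {W : ℂ × ℂ → ℂ} (hone : ∀ y ∈ D ρ, pair W y = 1)
    {y : ℂ × ℂ} (hy : y ∈ D ρ) :
    pair (Lop u v al be W) y = 1 + pair (Rop u v al be W) y := by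
  unfold pair
  rw [Lop_eq, Lop_eq, hone _ (add_ta_mem hy), hone _ (add_ta_mem (sub_hf_mem hy))]
  have := ch_th (hS.hPh y hy)
  linear_combination this

lemma Lop_good {W : ℂ × ℂ → ℂ} (hone : ∀ y ∈ D ρ, pair W y = 1)
    {y : ℂ × ℂ} (hy : y ∈ D ρ) :
    Lop u v al be W y = th y + Rop u v al be W y := by
  rw [Lop_eq, hone _ (add_ta_mem hy), mul_one]

lemma pair_Lop_sub_one (hS : Setup u v al be ρ K δ) {W : ℂ × ℂ → ℂ}
    (hone : ∀ y ∈ D ρ, pair W y = 1) (hbd : ∀ y ∈ D ρ, om y * ‖W y‖ ≤ 2 * K)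
    {y : ℂ × ℂ} (hy : y ∈ D ρ) :
    ‖pair (Lop u v al be W) y - 1‖ ≤ 1 / 25 := by
  rw [pair_Lop hS hone hy, add_sub_cancel_left]
  have hK := hS.hK
  have hδ0 := hS.hδ0
  have h1 : ∀ y ∈ D ρ, om y * ‖Rop u v al be W y‖ ≤ δ * (2 * K) :=
    fun y hy => Rop_le hS (by linarith) hbd hy
  refine (pair_le hS h1 hy).trans ?_
  have := hS.hδ
  nlinarith

lemma norm_pair_Lop_ge (hS : Setup u v al be ρ K δ) {W : ℂ × ℂ → ℂ} (hW : Good ρ K W)
    {y : ℂ × ℂ} (hy : y ∈ D ρ) :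
    24 / 25 ≤ ‖pair (Lop u v al be W) y‖ := by
  have h1 := pair_Lop_sub_one hS hW.one hW.bd hy
  have h2 := norm_sub_norm_le (1 : ℂ) (1 - pair (Lop u v al be W) y)
  rw [sub_sub_cancel, norm_one, norm_sub_rev] at h2
  linarith

lemma norm_pair_Lop_le (hS : Setup u v al be ρ K δ) {W : ℂ × ℂ → ℂ} (hW : Good ρ K W)
    {y : ℂ × ℂ} (hy : y ∈ D ρ) :
    ‖pair (Lop u v al be W) y‖ ≤ 26 / 25 := by
  have h1 := pair_Lop_sub_one hS hW.one hW.bd hy
  have h2 := norm_sub_norm_le (pair (Lop u v al be W) y) 1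
  rw [norm_one] at h2
  linarith

lemma diff_comp_add {W : ℂ × ℂ → ℂ} (hW : DifferentiableOn ℂ W (D ρ)) :
    DifferentiableOn ℂ (fun y => W (y + ta u v)) (D ρ) := by
  have h1 : DifferentiableOn ℂ (fun y : ℂ × ℂ => y + ta u v) (D ρ) := by fun_prop
  exact hW.comp h1 (fun y hy => add_ta_mem hy)

lemma diff_comp_sub {W : ℂ × ℂ → ℂ} (hW : DifferentiableOn ℂ W (D ρ)) :
    DifferentiableOn ℂ (fun y => W (y - hf)) (D ρ) := by
  have h1 : DifferentiableOn ℂ (fun y : ℂ × ℂ => y - hf) (D ρ) := by fun_prop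
  exact hW.comp h1 (fun y hy => sub_hf_mem hy)

lemma diff_ch (hS : Setup u v al be ρ K δ) : DifferentiableOn ℂ ch (D ρ) := by
  have h1 : DifferentiableOn ℂ (fun y => ths y * (Ph y)⁻¹) (D ρ) :=
    differentiable_ths.differentiableOn.mul (DifferentiableOn.inv differentiable_Ph.differentiableOn
      (fun y hy => hS.hPh y hy))
  exact h1.congr (fun y _ => by unfold ch; rw [div_eq_mul_inv])

lemma diff_pair (hS : Setup u v al be ρ K δ) {W : ℂ × ℂ → ℂ} (hW : DifferentiableOn ℂ W (D ρ)) :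
    DifferentiableOn ℂ (pair W) (D ρ) := by
  unfold pair
  exact ((diff_ch hS).mul hW).add ((diff_comp_sub (diff_ch hS)).mul (diff_comp_sub hW))

lemma diff_Lop (hS : Setup u v al be ρ K δ) {W : ℂ × ℂ → ℂ} (hW : DifferentiableOn ℂ W (D ρ)) :
    DifferentiableOn ℂ (Lop u v al be W) (D ρ) := by
  unfold Lop
  have h1 : Differentiable ℂ (fun y : ℂ × ℂ => E (-(v * (y.1 + u)))) :=
    differentiable_E.comp (by fun_prop)
  have h2 := hS.al_diff.differentiableOn (s := D ρ)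
  have h3 := hS.be_diff.differentiableOn (s := D ρ)
  refine h1.differentiableOn.mul (((diff_comp_add h2).mul (diff_comp_add hW)).add
    ((diff_comp_add h3).mul ?_))
  exact diff_comp_add (W := fun y => W (y - hf)) (diff_comp_sub hW)

/-- normalised iteration step -/
def Top (u v : ℝ) (al be : ℂ × ℂ → ℂ) (W : ℂ × ℂ → ℂ) (y : ℂ × ℂ) : ℂ :=
  Lop u v al be W y / pair (Lop u v al be W) y

lemma Top_good (hS : Setup u v al be ρ K δ) {W : ℂ × ℂ → ℂ} (hW : Good ρ K W) :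
    Good ρ K (Top u v al be W) where
  qp := by
    have hq := Lop_qp (u := u) (v := v) hS.al_left hS.al_right hS.be_left hS.be_right hW.qp
    constructor
    · intro y
      unfold Top
      rw [pair_left hq, hq.left, mul_div_assoc]
    · intro y
      unfold Top
      rw [pair_right hq, hq.right]
  one := by
    intro y hy
    have hq := Lop_qp (u := u) (v := v) hS.al_left hS.al_right hS.be_left hS.be_right hW.qp
    have h1 := norm_pair_Lop_ge hS hW hy
    have h2 : pair (Lop u v al be W) y ≠ 0 := by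
      rw [← norm_ne_zero_iff]; linarith
    have h3 : pair (Top u v al be W) y = pair (Lop u v al be W) y / pair (Lop u v al be W) y := by
      conv_lhs => unfold pair
      unfold Top
      rw [pair_sub_hf hq]
      conv_rhs =>
        enter [1]
        unfold pair
      ring
    rw [h3, div_self h2]
  bd := by
    intro y hy
    have hK := hS.hK
    have hδ0 := hS.hδ0
    have hδ := hS.hδ
    have h1 := norm_pair_Lop_ge hS hW hy
    have hR := Rop_le hS (by linarith) hW.bd hy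
    have hth := hS.hth y hy
    unfold Top
    rw [norm_div, ← mul_div_assoc, div_le_iff₀ (by linarith), Lop_good hW.one hy]
    have h3 : om y * ‖th y + Rop u v al be W y‖ ≤ K + δ * (2 * K) := by
      have := norm_add_le (th y) (Rop u v al be W y)
      have h4 := om_pos y
      calc om y * ‖th y + Rop u v al be W y‖ ≤ om y * (‖th y‖ + ‖Rop u v al be W y‖) := by gcongr
        _ = om y * ‖th y‖ + om y * ‖Rop u v al be W y‖ := by ring
        _ ≤ _ := add_le_add hth hR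
    have h5 : δ ≤ 1 / 100 := by
      have hK2 : (1 : ℝ) ≤ K ^ 2 := by nlinarith
      have : δ * 1 ≤ δ * K ^ 2 := by gcongr
      linarith
    calc om y * ‖th y + Rop u v al be W y‖ ≤ K + δ * (2 * K) := h3
      _ ≤ 2 * K * (24 / 25) := by nlinarith
      _ ≤ _ := by gcongr
  diff := by
    have h1 := diff_Lop hS hW.diff
    have h2 : DifferentiableOn ℂ (fun y => Lop u v al be W y * (pair (Lop u v al be W) y)⁻¹)
        (D ρ) := by
      refine h1.mul (DifferentiableOn.inv (diff_pair hS h1) (fun y hy => ?_))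
      have h1 := norm_pair_Lop_ge hS hW hy
      rw [← norm_ne_zero_iff]; linarith
    exact h2.congr (fun y _ => by unfold Top; rw [div_eq_mul_inv])

lemma Rop_sub_le (hS : Setup u v al be ρ K δ) {W W' : ℂ × ℂ → ℂ} {d : ℝ} (hd : 0 ≤ d)
    (h : ∀ y ∈ D ρ, om y * ‖W y - W' y‖ ≤ d) {y : ℂ × ℂ} (hy : y ∈ D ρ) :
    om y * ‖Rop u v al be W y - Rop u v al be W' y‖ ≤ δ * d := by
  have := Rop_le (W := fun y => W y - W' y) hS hd h hy
  rwa [Rop_sub] at this

lemma pair_Rop_sub_le (hS : Setup u v al be ρ K δ) {W W' : ℂ × ℂ → ℂ} {d : ℝ} (hd : 0 ≤ d)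
    (h : ∀ y ∈ D ρ, om y * ‖W y - W' y‖ ≤ d) {y : ℂ × ℂ} (hy : y ∈ D ρ) :
    ‖pair (Rop u v al be W) y - pair (Rop u v al be W') y‖ ≤ 2 * K * (δ * d) := by
  rw [← pair_sub]
  exact pair_le hS (fun z hz => Rop_sub_le hS hd h hz) hy

lemma Top_contr (hS : Setup u v al be ρ K δ) {W W' : ℂ × ℂ → ℂ} (hW : Good ρ K W)
    (hW' : Good ρ K W') {d : ℝ} (hd : 0 ≤ d)
    (h : ∀ y ∈ D ρ, om y * ‖W y - W' y‖ ≤ d) {y : ℂ × ℂ} (hy : y ∈ D ρ) :
    om y * ‖Top u v al be W y - Top u v al be W' y‖ ≤ d / 2 := by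
  have hK := hS.hK
  have hδ0 := hS.hδ0
  have hδ := hS.hδ
  have hom := om_pos y
  unfold Top
  rw [Lop_good hW.one hy, Lop_good hW'.one hy]
  set a := pair (Lop u v al be W) y with ha
  set a' := pair (Lop u v al be W') y with ha'
  have h1 : 24 / 25 ≤ ‖a‖ := norm_pair_Lop_ge hS hW hy
  have h1' : 24 / 25 ≤ ‖a'‖ := norm_pair_Lop_ge hS hW' hy
  have h2 : ‖a‖ ≤ 26 / 25 := norm_pair_Lop_le hS hW hy
  have hane : a ≠ 0 := by rw [← norm_ne_zero_iff]; linarith
  have hane' : a' ≠ 0 := by rw [← norm_ne_zero_iff]; linarith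
  have haa : ‖a' - a‖ ≤ 2 * K * (δ * d) := by
    rw [norm_sub_rev, ha, ha', pair_Lop hS hW.one hy, pair_Lop hS hW'.one hy, add_sub_add_left_eq_sub]
    exact pair_Rop_sub_le hS hd h hy
  have hR := Rop_le hS (by linarith) hW.bd hy
  have hRR := Rop_sub_le (al := al) (be := be) hS hd h hy
  have hth := hS.hth y hy
  set x := th y
  set r := Rop u v al be W y
  set r' := Rop u v al be W' y
  have e1 : (x + r) / a - (x + r') / a' = ((x + r) * (a' - a) + a * (r - r')) / (a * a') := by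
    field_simp
    ring
  rw [e1, norm_div, ← mul_div_assoc, norm_mul, div_le_iff₀ (by positivity)]
  have h3 : om y * ‖x + r‖ ≤ K + δ * (2 * K) := by
    have := norm_add_le x r
    calc om y * ‖x + r‖ ≤ om y * (‖x‖ + ‖r‖) := by gcongr
      _ = om y * ‖x‖ + om y * ‖r‖ := by ring
      _ ≤ _ := add_le_add hth hR
  have h5 : δ ≤ 1 / 100 := by
      have hK2 : (1 : ℝ) ≤ K ^ 2 := by nlinarith
      have : δ * 1 ≤ δ * K ^ 2 := by gcongr
      linarith
  have h6 : om y * ‖(x + r) * (a' - a) + a * (r - r')‖ ≤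
      (K + δ * (2 * K)) * (2 * K * (δ * d)) + 26 / 25 * (δ * d) := by
    calc om y * ‖(x + r) * (a' - a) + a * (r - r')‖
        ≤ om y * (‖(x + r) * (a' - a)‖ + ‖a * (r - r')‖) := by
          gcongr
          exact norm_add_le _ _
      _ = (om y * ‖x + r‖) * ‖a' - a‖ + ‖a‖ * (om y * ‖r - r'‖) := by
          rw [norm_mul, norm_mul]; ring
      _ ≤ _ := by
          gcongr
  refine h6.trans ?_
  have h7 : d / 2 * (24 / 25 * (24 / 25)) ≤ d / 2 * (‖a‖ * ‖a'‖) := by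
    gcongr
  refine le_trans ?_ h7
  have e2 : (K + δ * (2 * K)) * (2 * K * (δ * d)) + 26 / 25 * (δ * d) =
      (2 * (δ * K ^ 2) + 4 * δ * (δ * K ^ 2) + 26 / 25 * δ) * d := by ring
  rw [e2]
  have h9 : 2 * (δ * K ^ 2) + 4 * δ * (δ * K ^ 2) + 26 / 25 * δ ≤ 1 / 2 * (24 / 25 * (24 / 25)) := by
    have : 0 ≤ δ * K ^ 2 := by positivity
    nlinarith
  calc _ ≤ (1 / 2 * (24 / 25 * (24 / 25))) * d := by gcongr
    _ = _ := by ring

end

end Pool.Agent.Y306.HRT
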