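import Pool.Agent.Y306.HRT.Iter

set_option autoImplicit false

open Complex Filter Topology Set

namespace Pool.Agent.Y306.HRT

noncomputable section

variable {u v : ℝ} {al be : ℂ × ℂ → ℂ} {ρ K δ : ℝ}

/-- iterates -/
def Zs (u v : ℝ) (al be : ℂ × ℂ → ℂ) (n : ℕ) : ℂ × ℂ → ℂ := (Top u v al be)^[n] th

lemma th_good (hS : Setup u v al be ρ K δ) : Good ρ K th where
  qp := th_qp
  one y hy := ch_th (hS.hPh y hy)
  bd y hy := (hS.hth y hy).trans (by linarith [hS.hK])
  diff := differentiable_th.differentiableOn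

lemma Zs_succ (n : ℕ) : Zs u v al be (n + 1) = Top u v al be (Zs u v al be n) :=
  Function.iterate_succ_apply' _ _ _

lemma Zs_good (hS : Setup u v al be ρ K δ) (n : ℕ) : Good ρ K (Zs u v al be n) := by
  induction n with
  | zero => exact th_good hS
  | succ n ih => rw [Zs_succ]; exact Top_good hS ih

lemma Zs_diff (hS : Setup u v al be ρ K δ) (n : ℕ) : ∀ y ∈ D ρ,
    om y * ‖Zs u v al be n y - Zs u v al be (n + 1) y‖ ≤ 4 * K / 2 ^ n := by
  have hK := hS.hK
  induction n with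
  | zero =>
    intro y hy
    have h1 := (Zs_good hS 0).bd y hy
    have h2 := (Zs_good hS 1).bd y hy
    have hom := om_pos y
    calc om y * ‖Zs u v al be 0 y - Zs u v al be (0 + 1) y‖
        ≤ om y * (‖Zs u v al be 0 y‖ + ‖Zs u v al be 1 y‖) := by
          gcongr
          exact norm_sub_le _ _
      _ ≤ 4 * K / 2 ^ 0 := by
          rw [mul_add]; norm_num; linarith
  | succ n ih =>
    intro y hy
    have h1 := Top_contr hS (Zs_good hS n) (Zs_good hS (n + 1)) (by positivity) ih hy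
    rw [← Zs_succ, ← Zs_succ] at h1
    refine h1.trans (le_of_eq ?_)
    rw [pow_succ]; ring

/-- the limit -/
def Zl (u v : ℝ) (al be : ℂ × ℂ → ℂ) (y : ℂ × ℂ) : ℂ :=
  limUnder atTop (fun n => Zs u v al be n y)

/-- the multiplier -/
def mult (u v : ℝ) (al be : ℂ × ℂ → ℂ) (y : ℂ × ℂ) : ℂ := pair (Lop u v al be (Zl u v al be)) y

lemma Zs_dist (hS : Setup u v al be ρ K δ) {y : ℂ × ℂ} (hy : y ∈ D ρ) (n : ℕ) :
    dist (Zs u v al be n y) (Zs u v al be (n + 1) y) ≤ (8 * K / om y) / 2 / 2 ^ n := by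
  have h1 := Zs_diff hS n y hy
  have hom := om_pos y
  rw [dist_eq_norm]
  have h2 : ‖Zs u v al be n y - Zs u v al be (n + 1) y‖ ≤ (4 * K / 2 ^ n) / om y := by
    rw [le_div_iff₀ hom, mul_comm]; exact h1
  refine h2.trans (le_of_eq ?_)
  field_simp
  ring

lemma tendsto_Zs (hS : Setup u v al be ρ K δ) {y : ℂ × ℂ} (hy : y ∈ D ρ) :
    Tendsto (fun n => Zs u v al be n y) atTop (𝓝 (Zl u v al be y)) :=
  (cauchySeq_of_le_geometric_two (Zs_dist hS hy)).tendsto_limUnder

lemma Zs_sub_le (hS : Setup u v al be ρ K δ) (n : ℕ) : ∀ y ∈ D ρ,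
    om y * ‖Zs u v al be n y - Zl u v al be y‖ ≤ 8 * K / 2 ^ n := by
  intro y hy
  have h1 := dist_le_of_le_geometric_two_of_tendsto (Zs_dist hS hy) (tendsto_Zs hS hy) n
  have hom := om_pos y
  rw [dist_eq_norm] at h1
  calc om y * ‖Zs u v al be n y - Zl u v al be y‖ ≤ om y * (8 * K / om y / 2 ^ n) := by gcongr
    _ = _ := by field_simp

lemma Zl_left (hS : Setup u v al be ρ K δ) {y : ℂ × ℂ} (hy : y ∈ D ρ) :
    Zl u v al be (y + (1, 0)) = E y.2 * Zl u v al be y := by
  have h1 := tendsto_Zs hS hy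
  have hy' : y + (1, 0) ∈ D ρ := by simpa [D] using hy
  have h2 := tendsto_Zs hS hy'
  have h3 := h1.const_mul (E y.2)
  refine tendsto_nhds_unique h2 ?_
  refine h3.congr (fun n => ?_)
  exact ((Zs_good hS n).qp.left y).symm

lemma Zl_right (hS : Setup u v al be ρ K δ) {y : ℂ × ℂ} (hy : y ∈ D ρ) :
    Zl u v al be (y + (0, 1)) = Zl u v al be y := by
  have h1 := tendsto_Zs hS hy
  have hy' : y + (0, 1) ∈ D ρ := by simpa [D] using hy
  have h2 := tendsto_Zs hS hy'
  refine tendsto_nhds_unique h2 ?_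
  refine h1.congr (fun n => ?_)
  exact ((Zs_good hS n).qp.right y).symm

lemma tendsto_pair {F : ℕ → ℂ × ℂ → ℂ} {G : ℂ × ℂ → ℂ}
    (h : ∀ y ∈ D ρ, Tendsto (fun n => F n y) atTop (𝓝 (G y))) {y : ℂ × ℂ} (hy : y ∈ D ρ) :
    Tendsto (fun n => pair (F n) y) atTop (𝓝 (pair G y)) := by
  unfold pair
  exact ((h y hy).const_mul _).add ((h _ (sub_hf_mem hy)).const_mul _)

lemma tendsto_Lop {F : ℕ → ℂ × ℂ → ℂ} {G : ℂ × ℂ → ℂ}
    (h : ∀ y ∈ D ρ, Tendsto (fun n => F n y) atTop (𝓝 (G y))) {y : ℂ × ℂ} (hy : y ∈ D ρ) :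
    Tendsto (fun n => Lop u v al be (F n) y) atTop (𝓝 (Lop u v al be G y)) := by
  unfold Lop
  exact (((h _ (add_ta_mem hy)).const_mul _).add
    ((h _ (sub_hf_mem (add_ta_mem hy))).const_mul _)).const_mul _

lemma Zl_one (hS : Setup u v al be ρ K δ) : ∀ y ∈ D ρ, pair (Zl u v al be) y = 1 := by
  intro y hy
  have h1 := tendsto_pair (fun y hy => tendsto_Zs (u := u) (v := v) hS hy) hy
  refine tendsto_nhds_unique h1 ?_
  refine tendsto_const_nhds.congr (fun n => ?_)
  exact ((Zs_good hS n).one y hy).symm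

lemma Zl_bd (hS : Setup u v al be ρ K δ) : ∀ y ∈ D ρ, om y * ‖Zl u v al be y‖ ≤ 2 * K := by
  intro y hy
  have h1 := ((tendsto_Zs hS hy).norm).const_mul (om y)
  exact le_of_tendsto' h1 (fun n => (Zs_good hS n).bd y hy)

lemma mult_sub_one (hS : Setup u v al be ρ K δ) {y : ℂ × ℂ} (hy : y ∈ D ρ) :
    ‖mult u v al be y - 1‖ ≤ 1 / 25 :=
  pair_Lop_sub_one hS (Zl_one hS) (Zl_bd hS) hy

lemma mult_ne (hS : Setup u v al be ρ K δ) {y : ℂ × ℂ} (hy : y ∈ D ρ) :
    mult u v al be y ≠ 0 := by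
  have h1 := mult_sub_one hS hy
  intro h0
  rw [h0] at h1
  norm_num at h1

lemma Lop_Zl (hS : Setup u v al be ρ K δ) {y : ℂ × ℂ} (hy : y ∈ D ρ) :
    Lop u v al be (Zl u v al be) y = mult u v al be y * Zl u v al be y := by
  have h1 : ∀ y ∈ D ρ, Tendsto (fun n => Lop u v al be (Zs u v al be n) y) atTop
      (𝓝 (Lop u v al be (Zl u v al be) y)) :=
    fun y hy => tendsto_Lop (fun z hz => tendsto_Zs (u := u) (v := v) hS hz) hy
  have h2 := tendsto_pair h1 hy
  have h3 := (h1 y hy).div h2 (mult_ne hS hy)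
  have h4 := (tendsto_Zs hS hy).comp (tendsto_add_atTop_nat 1)
  have h5 : Zl u v al be y = Lop u v al be (Zl u v al be) y /
      pair (Lop u v al be (Zl u v al be)) y := by
    refine tendsto_nhds_unique h4 (h3.congr (fun n => ?_))
    simp only [Function.comp, Zs_succ, Top]
    rfl
  have h6 : pair (Lop u v al be (Zl u v al be)) y ≠ 0 := mult_ne hS hy
  rw [eq_div_iff h6] at h5
  unfold mult
  rw [← h5]; ring

lemma mult_dist (hS : Setup u v al be ρ K δ) {y : ℂ × ℂ} (hy : y ∈ D ρ) (n : ℕ) :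
    ‖pair (Lop u v al be (Zs u v al be n)) y - mult u v al be y‖ ≤ 1 / 2 ^ n := by
  unfold mult
  rw [pair_Lop hS (Zs_good hS n).one hy, pair_Lop hS (Zl_one hS) hy, add_sub_add_left_eq_sub]
  have hK := hS.hK
  have hδ0 := hS.hδ0
  have hδ := hS.hδ
  refine (pair_Rop_sub_le hS (by positivity) (Zs_sub_le hS n) hy).trans ?_
  have e : 2 * K * (δ * (8 * K / 2 ^ n)) = (16 * (δ * K ^ 2)) / 2 ^ n := by ring
  rw [e]
  gcongr
  linarith

lemma mult_tendstoUniformlyOn (hS : Setup u v al be ρ K δ) :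
    TendstoUniformlyOn (fun n => pair (Lop u v al be (Zs u v al be n))) (mult u v al be)
      atTop (D ρ) := by
  rw [Metric.tendstoUniformlyOn_iff]
  intro ε hε
  have h1 : Tendsto (fun n : ℕ => (1 : ℝ) / 2 ^ n) atTop (𝓝 0) := by
    have := tendsto_pow_atTop_nhds_zero_of_lt_one (r := (1 / 2 : ℝ)) (by norm_num) (by norm_num)
    refine this.congr (fun n => ?_)
    rw [div_pow, one_pow]
  filter_upwards [h1.eventually_lt_const hε] with n hn y hy
  rw [dist_comm, dist_eq_norm]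
  exact (mult_dist hS hy n).trans_lt hn

/-- strip in the plane -/
def St (ρ : ℝ) : Set ℂ := {z | |z.im| < ρ}

lemma isOpen_St (ρ : ℝ) : IsOpen (St ρ) := isOpen_lt (by fun_prop) continuous_const

lemma mult_slice_left (hS : Setup u v al be ρ K δ) {t : ℂ} (ht : t ∈ St ρ) :
    DifferentiableOn ℂ (fun s => mult u v al be (s, t)) (St ρ) := by
  have h1 : TendstoUniformlyOn (fun n s => pair (Lop u v al be (Zs u v al be n)) (s, t))
      (fun s => mult u v al be (s, t)) atTop (St ρ) := by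
    have := (mult_tendstoUniformlyOn hS).comp (fun s : ℂ => (s, t))
    exact this.mono (fun s hs => ⟨hs, ht⟩)
  refine h1.tendstoLocallyUniformlyOn.differentiableOn (Eventually.of_forall fun n => ?_)
    (isOpen_St ρ)
  have h2 := diff_pair hS (diff_Lop hS (Zs_good hS n).diff)
  exact h2.comp (by fun_prop : DifferentiableOn ℂ (fun s : ℂ => (s, t)) (St ρ))
    (fun s hs => ⟨hs, ht⟩)

lemma mult_slice_right (hS : Setup u v al be ρ K δ) {s : ℂ} (hs : s ∈ St ρ) :
    DifferentiableOn ℂ (fun t => mult u v al be (s, t)) (St ρ) := by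
  have h1 : TendstoUniformlyOn (fun n t => pair (Lop u v al be (Zs u v al be n)) (s, t))
      (fun t => mult u v al be (s, t)) atTop (St ρ) := by
    have := (mult_tendstoUniformlyOn hS).comp (fun t : ℂ => (s, t))
    exact this.mono (fun t ht => ⟨hs, ht⟩)
  refine h1.tendstoLocallyUniformlyOn.differentiableOn (Eventually.of_forall fun n => ?_)
    (isOpen_St ρ)
  have h2 := diff_pair hS (diff_Lop hS (Zs_good hS n).diff)
  exact h2.comp (by fun_prop : DifferentiableOn ℂ (fun t : ℂ => (s, t)) (St ρ))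
    (fun t ht => ⟨hs, ht⟩)

lemma continuous_real_mult (hS : Setup u v al be ρ K δ) :
    Continuous (fun p : ℝ × ℝ => mult u v al be ((p.1 : ℂ), (p.2 : ℂ))) := by
  have h1 : TendstoUniformly (fun n (p : ℝ × ℝ) =>
      pair (Lop u v al be (Zs u v al be n)) ((p.1 : ℂ), (p.2 : ℂ)))
      (fun p : ℝ × ℝ => mult u v al be ((p.1 : ℂ), (p.2 : ℂ))) atTop := by
    have := (mult_tendstoUniformlyOn hS).comp (fun p : ℝ × ℝ => ((p.1 : ℂ), (p.2 : ℂ)))
    rw [← tendstoUniformlyOn_univ]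
    exact this.mono (fun p _ => real_mem_D hS.hρ _ _)
  refine h1.continuous (Frequently.of_forall fun n => ?_)
  have h2 := (diff_pair hS (diff_Lop hS (Zs_good hS n).diff)).continuousOn
  exact h2.comp_continuous (by fun_prop) (fun p => real_mem_D hS.hρ _ _)

lemma continuous_real_Zl (hS : Setup u v al be ρ K δ) :
    Continuous (fun p : ℝ × ℝ => Zl u v al be ((p.1 : ℂ), (p.2 : ℂ))) := by
  have h1 : TendstoUniformly (fun n (p : ℝ × ℝ) => Zs u v al be n ((p.1 : ℂ), (p.2 : ℂ)))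
      (fun p : ℝ × ℝ => Zl u v al be ((p.1 : ℂ), (p.2 : ℂ))) atTop := by
    rw [Metric.tendstoUniformly_iff]
    intro ε hε
    have hK := hS.hK
    have h1 : Tendsto (fun n : ℕ => (8 * K : ℝ) / 2 ^ n) atTop (𝓝 0) := by
      have := (tendsto_pow_atTop_nhds_zero_of_lt_one (r := (1 / 2 : ℝ)) (by norm_num)
        (by norm_num)).const_mul (8 * K)
      rw [mul_zero] at this
      refine this.congr (fun n => ?_)
      rw [div_pow, one_pow]; ring
    filter_upwards [h1.eventually_lt_const hε] with n hn p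
    rw [dist_comm, dist_eq_norm]
    have := Zs_sub_le hS n _ (real_mem_D hS.hρ p.1 p.2)
    rw [om_real, one_mul] at this
    exact this.trans_lt hn
  refine h1.continuous (Frequently.of_forall fun n => ?_)
  have h2 := (Zs_good hS n).diff.continuousOn
  exact h2.comp_continuous (by fun_prop) (fun p => real_mem_D hS.hρ _ _)

lemma mult_hf (hS : Setup u v al be ρ K δ) {y : ℂ × ℂ} (hy : y ∈ D ρ) :
    mult u v al be (y + hf) = mult u v al be y := by
  have hy' : y + hf ∈ D ρ := by simpa [D, hf] using hy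
  have h1 := (mult_tendstoUniformlyOn hS).tendsto_at hy
  have h2 := (mult_tendstoUniformlyOn hS).tendsto_at hy'
  refine tendsto_nhds_unique h2 (h1.congr (fun n => ?_))
  exact (pair_hf (Lop_qp (u := u) (v := v) hS.al_left hS.al_right hS.be_left hS.be_right
    (Zs_good hS n).qp) y).symm

lemma mult_right (hS : Setup u v al be ρ K δ) {y : ℂ × ℂ} (hy : y ∈ D ρ) :
    mult u v al be (y + (0, 1)) = mult u v al be y := by
  have hy' : y + (0, 1) ∈ D ρ := by simpa [D] using hy
  have h1 := (mult_tendstoUniformlyOn hS).tendsto_at hy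
  have h2 := (mult_tendstoUniformlyOn hS).tendsto_at hy'
  refine tendsto_nhds_unique h2 (h1.congr (fun n => ?_))
  exact (pair_right (Lop_qp (u := u) (v := v) hS.al_left hS.al_right hS.be_left hS.be_right
    (Zs_good hS n).qp) y).symm

end

end Pool.Agent.Y306.HRT
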