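import Mathlib

set_option autoImplicit false

open Complex

namespace Pool.Agent.Y306.HRT

noncomputable section

/-- `E z = exp (2 π i z)` for complex `z`. -/
def E (z : ℂ) : ℂ := Complex.exp (2 * Real.pi * Complex.I * z)

lemma E_add (x y : ℂ) : E (x + y) = E x * E y := by
  unfold E; rw [← Complex.exp_add]; ring_nf

lemma E_zero : E 0 = 1 := by simp [E]

lemma E_ne (x : ℂ) : E x ≠ 0 := Complex.exp_ne_zero _

lemma E_neg (x : ℂ) : E (-x) = (E x)⁻¹ := by
  unfold E; rw [← Complex.exp_neg]; ring_nf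

lemma E_mul_neg (x : ℂ) : E x * E (-x) = 1 := by
  rw [← E_add, add_neg_cancel, E_zero]

lemma E_neg_mul (x : ℂ) : E (-x) * E x = 1 := by
  rw [← E_add, neg_add_cancel, E_zero]

lemma E_int (n : ℤ) : E n = 1 := by
  unfold E
  rw [Complex.exp_eq_one_iff]
  exact ⟨n, by ring⟩

lemma E_one : E 1 = 1 := by
  have := E_int 1
  simpa using this

lemma E_add_one (z : ℂ) : E (z + 1) = E z := by
  rw [E_add, E_one, mul_one]

lemma norm_E (z : ℂ) : ‖E z‖ = Real.exp (-(2 * Real.pi * z.im)) := by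
  unfold E
  rw [Complex.norm_exp]
  congr 1
  simp [Complex.mul_re, Complex.mul_im]

lemma differentiable_E : Differentiable ℂ E := by
  unfold E; fun_prop

lemma continuous_E : Continuous E := differentiable_E.continuous

/-- theta section -/
def th (y : ℂ × ℂ) : ℂ := Complex.exp (-Real.pi * y.1 ^ 2) * jacobiTheta₂ (I * y.1 - y.2) I

/-- dual theta section -/
def ths (y : ℂ × ℂ) : ℂ := Complex.exp (-Real.pi * y.1 ^ 2) * jacobiTheta₂ (I * y.1 + y.2) I

/-- quasi-periodic of degree one -/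
structure QP (W : ℂ × ℂ → ℂ) : Prop where
  left : ∀ y, W (y + (1, 0)) = E y.2 * W y
  right : ∀ y, W (y + (0, 1)) = W y

/-- quasi-periodic of degree minus one -/
structure QP' (W : ℂ × ℂ → ℂ) : Prop where
  left : ∀ y, W (y + (1, 0)) = E (-y.2) * W y
  right : ∀ y, W (y + (0, 1)) = W y

lemma th_left (s t : ℂ) : th (s + 1, t) = E t * th (s, t) := by
  unfold th
  simp only
  have h1 : I * (s + 1) - t = (I * s - t) + I := by ring
  rw [h1, jacobiTheta₂_add_left']
  unfold E
  rw [← mul_assoc, ← mul_assoc, ← Complex.exp_add, ← Complex.exp_add]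
  congr 2
  have hI : I ^ 2 = -1 := Complex.I_sq
  linear_combination (-(Real.pi : ℂ) - 2 * Real.pi * s) * hI

lemma th_right (s t : ℂ) : th (s, t + 1) = th (s, t) := by
  unfold th
  simp only
  have h1 : I * s - t = (I * s - (t + 1)) + 1 := by ring
  rw [h1, jacobiTheta₂_add_left]

lemma th_qp : QP th where
  left y := by
    obtain ⟨s, t⟩ := y
    simpa using th_left s t
  right y := by
    obtain ⟨s, t⟩ := y
    simpa using th_right s t

lemma ths_eq (s t : ℂ) : ths (s, t) = th (s, -t) := by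
  unfold ths th
  simp only [sub_neg_eq_add]

lemma ths_qp : QP' ths where
  left y := by
    obtain ⟨s, t⟩ := y
    simp only [Prod.mk_add_mk, add_zero, ths_eq, th_left]
  right y := by
    obtain ⟨s, t⟩ := y
    simp only [Prod.mk_add_mk, add_zero, ths_eq]
    have := th_right s (-(t + 1))
    rw [← this]
    congr 2
    ring

lemma differentiable_th : Differentiable ℂ th := by
  have h : Differentiable ℂ (fun z => jacobiTheta₂ z I) := fun z =>
    differentiableAt_jacobiTheta₂_fst z (by simp)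
  unfold th
  apply Differentiable.mul
  · fun_prop
  · exact h.comp (by fun_prop : Differentiable ℂ (fun y : ℂ × ℂ => I * y.1 - y.2))

lemma differentiable_ths : Differentiable ℂ ths := by
  have h : Differentiable ℂ (fun z => jacobiTheta₂ z I) := fun z =>
    differentiableAt_jacobiTheta₂_fst z (by simp)
  unfold ths
  apply Differentiable.mul
  · fun_prop
  · exact h.comp (by fun_prop : Differentiable ℂ (fun y : ℂ × ℂ => I * y.1 + y.2))

lemma ths_real (s t : ℝ) : ths (s, t) = starRingEnd ℂ (th (s, t)) := by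
  unfold ths th
  simp only [map_mul]
  congr 1
  · rw [← Complex.exp_conj]
    congr 1
    simp
  · rw [jacobiTheta₂_conj]
    simp only [map_sub, map_mul, Complex.conj_I, Complex.conj_ofReal, neg_neg]
    rw [← jacobiTheta₂_neg_left]
    congr 1
    ring

lemma exp_bound : Real.exp (-(Real.pi / 2)) < 1 / 3 := by
  have h1 : (3 : ℝ) < Real.exp (Real.pi / 2) := by
    have h2 : Real.exp 1 > 2.7182818283 := Real.exp_one_gt_d9
    have h3 : (1.5 : ℝ) < Real.pi / 2 := by
      have := Real.pi_gt_d2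
      linarith
    have h4 : Real.exp 1.5 < Real.exp (Real.pi / 2) := Real.exp_lt_exp.2 h3
    have h5 : Real.exp 1.5 = Real.exp 1 * Real.exp 0.5 := by
      rw [← Real.exp_add]; norm_num
    have h6 : (1.5 : ℝ) ≤ Real.exp 0.5 := by
      have := Real.add_one_le_exp (0.5 : ℝ)
      linarith
    nlinarith
  rw [Real.exp_neg, inv_lt_comm₀ (Real.exp_pos _) (by norm_num)]
  simpa using h1

lemma norm_term_le {s t : ℝ} (hs : |s| ≤ 1 / 4) (n : ℤ) :
    ‖jacobiTheta₂_term n (I * s - t) I‖ ≤ Real.exp (-(Real.pi / 2)) ^ n.natAbs := by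
  rw [norm_jacobiTheta₂_term, ← Real.exp_nat_mul]
  apply Real.exp_le_exp.2
  have h1 : (I : ℂ).im = 1 := Complex.I_im
  have h2 : (I * (s : ℂ) - (t : ℂ)).im = s := by simp
  rw [h1, h2]
  have hpi := Real.pi_pos
  have h3 : ((n.natAbs : ℕ) : ℝ) = |(n : ℝ)| := by
    rw [Nat.cast_natAbs]; simp
  rw [h3]
  have h4 : |(n : ℝ)| ≤ (n : ℝ) ^ 2 := by
    rcases eq_or_ne n 0 with rfl | hn
    · simp
    · have h5 : (1 : ℝ) ≤ |(n : ℝ)| := by
        have := Int.one_le_abs hn
        exact_mod_cast this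
      rw [← sq_abs]
      nlinarith
  have h5 : -(n * s) ≤ |(n : ℝ)| * (1 / 4) := by
    calc -(n * s) ≤ |(n : ℝ) * s| := neg_le_abs _
      _ = |(n : ℝ)| * |s| := abs_mul _ _
      _ ≤ _ := by gcongr
  nlinarith

lemma summable_geo {q : ℝ} (h0 : 0 ≤ q) (h1 : q < 1) :
    HasSum (fun n : ℤ => q ^ n.natAbs) ((1 + q) / (1 - q)) := by
  have h2 := hasSum_geometric_of_lt_one h0 h1
  have h3 : HasSum (fun n : ℕ => q ^ ((Int.natAbs (-(n + 1 : ℤ))) : ℕ)) (q * (1 - q)⁻¹) := by
    have h4 := h2.mul_left q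
    refine h4.congr_fun ?_ |> fun h => h
    intro n
    have : Int.natAbs (-(n + 1 : ℤ)) = n + 1 := by omega
    rw [this, pow_succ]; ring
  have h5 := HasSum.of_nat_of_neg_add_one (f := fun n : ℤ => q ^ n.natAbs) (by simpa using h2) h3
  convert h5 using 1
  have : 1 - q ≠ 0 := by linarith
  field_simp

lemma th_ne {s : ℝ} (hs : |s| ≤ 1 / 4) (t : ℝ) : th (s, t) ≠ 0 := by
  unfold th
  simp only
  refine mul_ne_zero (Complex.exp_ne_zero _) ?_
  set q := Real.exp (-(Real.pi / 2)) with hq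
  have hq0 : 0 ≤ q := (Real.exp_pos _).le
  have hq1 : q < 1 / 3 := exp_bound
  have h1 := hasSum_jacobiTheta₂_term (I * s - t) (τ := I) (by simp)
  have h2 := summable_geo hq0 (by linarith)
  have h3 := h1.sub (hasSum_ite_eq (0 : ℤ) (1 : ℂ))
  have h4 := h2.sub (hasSum_ite_eq (0 : ℤ) (1 : ℝ))
  have h5 : ‖jacobiTheta₂ (I * s - t) I - 1‖ ≤ (1 + q) / (1 - q) - 1 := by
    refine h3.norm_le_of_bounded h4 ?_
    intro n
    rcases eq_or_ne n 0 with rfl | hn
    · simp [jacobiTheta₂_term]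
    · simp only [hn, if_false, sub_zero]
      exact norm_term_le hs n
  have h6 : (1 + q) / (1 - q) - 1 < 1 := by
    rw [sub_lt_iff_lt_add, div_lt_iff₀ (by linarith)]
    linarith
  intro h0
  rw [h0] at h5
  simp at h5
  linarith

end

end Pool.Agent.Y306.HRT
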