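import Pool.Agent.Y306.HRT.Theta

set_option autoImplicit false

open Complex Filter Topology Set

namespace Pool.Agent.Y306.HRT

noncomputable section

/-- half shift -/
def hf : ℂ × ℂ := (1 / 2, 0)

lemma hf_add_hf : hf + hf = (1, 0) := by
  unfold hf; ext <;> norm_num

/-- `Φ` -/
def Ph (y : ℂ × ℂ) : ℂ := th y * ths y + th (y - hf) * ths (y - hf)

lemma thths_left (y : ℂ × ℂ) : th (y + (1, 0)) * ths (y + (1, 0)) = th y * ths y := by
  rw [th_qp.left, ths_qp.left]
  have := E_mul_neg y.2
  linear_combination (th y * ths y) * this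

lemma thths_right (y : ℂ × ℂ) : th (y + (0, 1)) * ths (y + (0, 1)) = th y * ths y := by
  rw [th_qp.right, ths_qp.right]

lemma add_hf_eq (y : ℂ × ℂ) : y + hf = (y - hf) + (1, 0) := by
  rw [← hf_add_hf]; abel

lemma Ph_hf (y : ℂ × ℂ) : Ph (y + hf) = Ph y := by
  unfold Ph
  rw [add_sub_cancel_right, add_hf_eq, thths_left]
  ring

lemma Ph_right (y : ℂ × ℂ) : Ph (y + (0, 1)) = Ph y := by
  unfold Ph
  rw [thths_right, show y + (0, 1) - hf = (y - hf) + (0, 1) by abel, thths_right]

lemma Ph_left (y : ℂ × ℂ) : Ph (y + (1, 0)) = Ph y := by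
  rw [← hf_add_hf, ← add_assoc, Ph_hf, Ph_hf]

lemma Ph_sub_hf (y : ℂ × ℂ) : Ph (y - hf) = Ph y := by
  have := Ph_hf (y - hf)
  rw [sub_add_cancel] at this
  exact this.symm

lemma differentiable_Ph : Differentiable ℂ Ph := by
  unfold Ph
  have h1 := differentiable_th
  have h2 := differentiable_ths
  have h3 : Differentiable ℂ (fun y : ℂ × ℂ => y - hf) := by fun_prop
  exact (h1.mul h2).add ((h1.comp h3).mul (h2.comp h3))

/-- normalised dual section -/
def ch (y : ℂ × ℂ) : ℂ := ths y / Ph y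

lemma ch_qp : QP' ch where
  left y := by
    unfold ch
    rw [Ph_left, ths_qp.left]; ring
  right y := by
    unfold ch
    rw [Ph_right, ths_qp.right]

lemma ch_th {y : ℂ × ℂ} (h : Ph y ≠ 0) : ch y * th y + ch (y - hf) * th (y - hf) = 1 := by
  unfold ch
  rw [Ph_sub_hf]
  have : ths y / Ph y * th y + ths (y - hf) / Ph y * th (y - hf) = Ph y / Ph y := by
    conv_rhs => rw [Ph]
    unfold Ph
    ring
  rw [this, div_self h]

lemma thths_real (s t : ℝ) : th (s, t) * ths (s, t) = ((‖th (s, t)‖ ^ 2 : ℝ) : ℂ) := by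
  rw [ths_real, Complex.mul_conj, Complex.normSq_eq_norm_sq]

lemma real_sub_hf (s t : ℝ) : (((s : ℂ), (t : ℂ)) : ℂ × ℂ) - hf = (((s - 1 / 2 : ℝ) : ℂ), (t : ℂ)) := by
  unfold hf
  ext <;> simp

lemma norm_th_add_int (s t : ℝ) (n : ℤ) : ‖th (((s + n : ℝ) : ℂ), t)‖ = ‖th (s, t)‖ := by
  have key : ∀ r : ℝ, ‖th (((r + 1 : ℝ) : ℂ), t)‖ = ‖th (r, t)‖ := by
    intro r
    have := th_left r t
    push_cast
    rw [this, norm_mul, norm_E]
    simp
  induction n using Int.induction_on with
  | zero => simp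
  | succ n ih =>
    have := key (s + n)
    rw [← ih]
    push_cast at this ⊢
    rw [← add_assoc]
    exact this
  | pred n ih =>
    have := key (s + (-(n : ℝ) - 1))
    rw [← ih]
    push_cast at this ⊢
    rw [← this]
    congr 3
    ring

lemma Ph_real_ne (s t : ℝ) : Ph (s, t) ≠ 0 := by
  unfold Ph
  rw [real_sub_hf, thths_real, thths_real, ← Complex.ofReal_add]
  rw [Complex.ofReal_ne_zero]
  have hcase : th (s, t) ≠ 0 ∨ th (((s - 1 / 2 : ℝ) : ℂ), t) ≠ 0 := by
    by_cases h : |s - round s| ≤ 1 / 4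
    · left
      have h1 := th_ne h t
      have h2 := norm_th_add_int (s - round s) t (round s)
      rw [sub_add_cancel] at h2
      rw [← norm_ne_zero_iff, h2, norm_ne_zero_iff]
      exact h1
    · right
      push Not at h
      have h0 := abs_sub_round s
      rcases le_total 0 (s - round s) with h3 | h3
      · rw [abs_of_nonneg h3] at h h0
        have h4 : |s - 1 / 2 - round s| ≤ 1 / 4 := by
          rw [abs_le]; constructor <;> linarith
        have h1 := th_ne h4 t
        have h2 := norm_th_add_int (s - 1 / 2 - round s) t (round s)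
        rw [sub_add_cancel] at h2
        rw [← norm_ne_zero_iff, h2, norm_ne_zero_iff]
        exact h1
      · rw [abs_of_nonpos h3] at h h0
        have h4 : |s - 1 / 2 - ((round s - 1 : ℤ) : ℝ)| ≤ 1 / 4 := by
          push_cast
          rw [abs_le]; constructor <;> linarith
        have h1 := th_ne h4 t
        have h2 := norm_th_add_int (s - 1 / 2 - ((round s - 1 : ℤ) : ℝ)) t (round s - 1)
        rw [sub_add_cancel] at h2
        rw [← norm_ne_zero_iff, h2, norm_ne_zero_iff]
        exact h1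
  rcases hcase with h | h
  · have := norm_pos_iff.2 h
    positivity
  · have := norm_pos_iff.2 h
    positivity

/-- weight -/
def om (y : ℂ × ℂ) : ℝ := Real.exp (2 * Real.pi * (y.1.re * y.2.im))

lemma om_pos (y : ℂ × ℂ) : 0 < om y := Real.exp_pos _

lemma om_left (y : ℂ × ℂ) : om (y + (1, 0)) * ‖E y.2‖ = om y := by
  unfold om
  rw [norm_E, ← Real.exp_add]
  congr 1
  simp
  ring

lemma om_left' (y : ℂ × ℂ) : om (y + (1, 0)) = om y * ‖E (-y.2)‖ := by
  unfold om
  rw [norm_E, ← Real.exp_add]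
  congr 1
  simp
  ring

lemma om_right (y : ℂ × ℂ) : om (y + (0, 1)) = om y := by
  unfold om
  congr 1
  simp

lemma om_real (s t : ℝ) : om (s, t) = 1 := by
  simp [om]

lemma continuous_om : Continuous om := by
  unfold om
  fun_prop

/-- the strip -/
def D (ρ : ℝ) : Set (ℂ × ℂ) := {y | |y.1.im| < ρ ∧ |y.2.im| < ρ}

lemma isOpen_D (ρ : ℝ) : IsOpen (D ρ) := by
  unfold D
  apply IsOpen.and
  · exact isOpen_lt (by fun_prop) continuous_const
  · exact isOpen_lt (by fun_prop) continuous_const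

lemma real_mem_D {ρ : ℝ} (hρ : 0 < ρ) (s t : ℝ) : ((s : ℂ), (t : ℂ)) ∈ D ρ := by
  simp [D, hρ]

lemma tube (G : ℂ × ℂ → Prop) (h1 : ∀ y, G y → G (y + (1, 0))) (h1' : ∀ y, G y → G (y - (1, 0)))
    (h2 : ∀ y, G y → G (y + (0, 1))) (h2' : ∀ y, G y → G (y - (0, 1)))
    (hr : ∀ s t : ℝ, ∀ᶠ z in 𝓝 ((s : ℂ), (t : ℂ)), G z) :
    ∃ ρ > 0, ∀ y ∈ D ρ, G y := by
  have hz : ((0 : ℂ), (0 : ℂ)) = (0 : ℂ × ℂ) := rfl
  have g1 : ∀ (n : ℤ) y, G y → G (y + ((n : ℂ), 0)) := by
    intro n
    induction n using Int.induction_on with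
    | zero => intro y hy; simpa [hz] using hy
    | succ n ih =>
      intro y hy
      have := h1 _ (ih y hy)
      convert this using 1
      rw [add_assoc]
      congr 1
      ext <;> simp
    | pred n ih =>
      intro y hy
      have := h1' _ (ih y hy)
      convert this using 1
      rw [add_sub_assoc]
      congr 1
      ext <;> simp
  have g2 : ∀ (n : ℤ) y, G y → G (y + (0, (n : ℂ))) := by
    intro n
    induction n using Int.induction_on with
    | zero => intro y hy; simpa [hz] using hy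
    | succ n ih =>
      intro y hy
      have := h2 _ (ih y hy)
      convert this using 1
      rw [add_assoc]
      congr 1
      ext <;> simp
    | pred n ih =>
      intro y hy
      have := h2' _ (ih y hy)
      convert this using 1
      rw [add_sub_assoc]
      congr 1
      ext <;> simp
  set K : Set (ℂ × ℂ) := (fun p : ℝ × ℝ => ((p.1 : ℂ), (p.2 : ℂ))) '' (Icc 0 1 ×ˢ Icc 0 1) with hK
  have hKc : IsCompact K := (isCompact_Icc.prod isCompact_Icc).image (by fun_prop)
  have hKU : K ⊆ interior {z | G z} := by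
    rintro _ ⟨⟨s, t⟩, -, rfl⟩
    rw [mem_interior_iff_mem_nhds]
    exact hr s t
  obtain ⟨δ, hδ, hsub⟩ := hKc.exists_thickening_subset_open isOpen_interior hKU
  refine ⟨δ, hδ, fun y hy => ?_⟩
  set y' : ℂ × ℂ := (y + (((-⌊y.1.re⌋ : ℤ) : ℂ), 0)) + (0, ((-⌊y.2.re⌋ : ℤ) : ℂ)) with hy'
  have hre1 : y'.1.re = Int.fract y.1.re := by
    rw [hy']
    simp only [Prod.fst_add, add_zero, Complex.add_re, Complex.intCast_re]
    push_cast
    rw [← Int.self_sub_floor]; ring
  have hre2 : y'.2.re = Int.fract y.2.re := by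
    rw [hy']
    simp only [Prod.snd_add, add_zero, Complex.add_re, Complex.intCast_re]
    push_cast
    rw [← Int.self_sub_floor]; ring
  have him1 : y'.1.im = y.1.im := by
    rw [hy']; simp
  have him2 : y'.2.im = y.2.im := by
    rw [hy']; simp
  have hmem : y' ∈ Metric.thickening δ K := by
    rw [Metric.mem_thickening_iff]
    refine ⟨((y'.1.re : ℂ), (y'.2.re : ℂ)), ⟨(y'.1.re, y'.2.re), ⟨⟨?_, ?_⟩, ⟨?_, ?_⟩⟩, rfl⟩, ?_⟩
    · rw [hre1]; exact Int.fract_nonneg _
    · rw [hre1]; exact (Int.fract_lt_one _).le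
    · rw [hre2]; exact Int.fract_nonneg _
    · rw [hre2]; exact (Int.fract_lt_one _).le
    · rw [Prod.dist_eq, max_lt_iff]
      constructor
      · rw [dist_eq_norm]
        have : y'.1 - (y'.1.re : ℂ) = (y'.1.im : ℂ) * I := by
          nth_rewrite 1 [← Complex.re_add_im y'.1]
          ring
        simp only
        rw [this, norm_mul, Complex.norm_I, mul_one, Complex.norm_real, Real.norm_eq_abs, him1]
        exact hy.1
      · rw [dist_eq_norm]
        have : y'.2 - (y'.2.re : ℂ) = (y'.2.im : ℂ) * I := by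
          nth_rewrite 1 [← Complex.re_add_im y'.2]
          ring
        simp only
        rw [this, norm_mul, Complex.norm_I, mul_one, Complex.norm_real, Real.norm_eq_abs, him2]
        exact hy.2
  have hG : G y' := interior_subset (hsub hmem)
  have h3 := g1 ⌊y.1.re⌋ _ (g2 ⌊y.2.re⌋ _ hG)
  convert h3 using 1
  rw [hy']
  ext <;> simp

end

end Pool.Agent.Y306.HRT
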