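import Pool.Agent.Y306.HRT.Limit

set_option autoImplicit false

open Complex Filter Topology Set

namespace Pool.Agent.Y306.HRT

noncomputable section

/-- trigonometric polynomial -/
def trig (F : Finset (Fin 2 → ℤ)) (A : (Fin 2 → ℤ) → ℂ) (y : ℂ × ℂ) : ℂ :=
  ∑ k ∈ F, A k * E (k 0 * y.1 + k 1 * y.2)

lemma trig_left (F : Finset (Fin 2 → ℤ)) (A : (Fin 2 → ℤ) → ℂ) (y : ℂ × ℂ) :
    trig F A (y + (1, 0)) = trig F A y := by
  unfold trig
  refine Finset.sum_congr rfl (fun k _ => ?_)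
  have : (k 0 * (y + (1, 0)).1 + k 1 * (y + (1, 0)).2 : ℂ) = (k 0 * y.1 + k 1 * y.2) + k 0 := by
    simp; ring
  rw [this, E_add, E_int, mul_one]

lemma trig_right (F : Finset (Fin 2 → ℤ)) (A : (Fin 2 → ℤ) → ℂ) (y : ℂ × ℂ) :
    trig F A (y + (0, 1)) = trig F A y := by
  unfold trig
  refine Finset.sum_congr rfl (fun k _ => ?_)
  have : (k 0 * (y + (0, 1)).1 + k 1 * (y + (0, 1)).2 : ℂ) = (k 0 * y.1 + k 1 * y.2) + k 1 := by
    simp; ring
  rw [this, E_add, E_int, mul_one]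

lemma differentiable_trig (F : Finset (Fin 2 → ℤ)) (A : (Fin 2 → ℤ) → ℂ) :
    Differentiable ℂ (trig F A) := by
  unfold trig
  refine Differentiable.fun_sum (fun k _ => ?_)
  exact (differentiable_E.comp (by fun_prop)).const_mul _

lemma isOpenQuotientMap_torus :
    IsOpenQuotientMap (Pi.map (fun (_ : Fin 2) (x : ℝ) => (x : UnitAddCircle))) :=
  IsOpenQuotientMap.piMap (fun _ => QuotientAddGroup.isOpenQuotientMap_mk)

lemma mFourier_coe (n : Fin 2 → ℤ) (x : Fin 2 → ℝ) :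
    UnitAddTorus.mFourier n (Pi.map (fun (_ : Fin 2) (x : ℝ) => (x : UnitAddCircle)) x) =
      E (n 0 * (x 0 : ℂ) + n 1 * (x 1 : ℂ)) := by
  unfold UnitAddTorus.mFourier
  simp only [ContinuousMap.coe_mk, Fin.prod_univ_two, Pi.map_apply]
  rw [fourier_coe_apply, fourier_coe_apply, E_add]
  unfold E
  congr 1
  · congr 1
    push_cast; ring
  · congr 1
    push_cast; ring

lemma trig_approx (f : ℝ → ℝ → ℂ) (hf : Continuous (fun p : ℝ × ℝ => f p.1 p.2))
    (h1 : ∀ s t, f (s + 1) t = f s t) (h2 : ∀ s t, f s (t + 1) = f s t) {ε : ℝ} (hε : 0 < ε) :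
    ∃ (F : Finset (Fin 2 → ℤ)) (A : (Fin 2 → ℤ) → ℂ), ∀ s t : ℝ,
      ‖f s t - trig F A ((s : ℂ), (t : ℂ))‖ < ε := by
  set q : (Fin 2 → ℝ) → UnitAddTorus (Fin 2) :=
    Pi.map (fun (_ : Fin 2) (x : ℝ) => (x : UnitAddCircle)) with hq
  have hqo : IsOpenQuotientMap q := isOpenQuotientMap_torus
  set g : C(Fin 2 → ℝ, ℂ) := ⟨fun x => f (x 0) (x 1), by
    exact hf.comp (by fun_prop : Continuous (fun x : Fin 2 → ℝ => (x 0, x 1)))⟩ with hg
  have g1 : ∀ (n : ℤ) s t, f (s + n) t = f s t := by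
    intro n
    have hp : ∀ t, Function.Periodic (fun s => f s t) 1 := fun t s => h1 s t
    intro s t
    have := (hp t).int_mul n s
    simpa using this
  have g2 : ∀ (n : ℤ) s t, f s (t + n) = f s t := by
    intro n
    have hp : ∀ s, Function.Periodic (fun t => f s t) 1 := fun s t => h2 s t
    intro s t
    have := (hp s).int_mul n t
    simpa using this
  have hfac : Function.FactorsThrough g q := by
    intro x y hxy
    have e0 : ((x 0 : ℝ) : UnitAddCircle) = (y 0 : ℝ) := congrFun hxy 0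
    have e1 : ((x 1 : ℝ) : UnitAddCircle) = (y 1 : ℝ) := congrFun hxy 1
    rw [QuotientAddGroup.eq, AddSubgroup.mem_zmultiples_iff] at e0 e1
    obtain ⟨m, hm⟩ := e0
    obtain ⟨n, hn⟩ := e1
    have hm' : y 0 = x 0 + m := by
      have : (m : ℝ) = -x 0 + y 0 := by simpa using hm
      linarith
    have hn' : y 1 = x 1 + n := by
      have : (n : ℝ) = -x 1 + y 1 := by simpa using hn
      linarith
    simp only [hg, ContinuousMap.coe_mk]
    rw [hm', hn', g1, g2]
  let G : C(UnitAddTorus (Fin 2), ℂ) := IsQuotientMap.lift (f := ⟨q, hqo.continuous⟩) hqo.isQuotientMap g hfac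
  have hG : ∀ x, G (q x) = g x := by
    intro x
    have := IsQuotientMap.lift_comp (f := ⟨q, hqo.continuous⟩) hqo.isQuotientMap g hfac
    exact DFunLike.congr_fun this x
  have hmem : G ∈ (Submodule.span ℂ (range (UnitAddTorus.mFourier (d := Fin 2)))).topologicalClosure := by
    rw [UnitAddTorus.span_mFourier_closure_eq_top]; trivial
  have hmem2 : G ∈ closure ((Submodule.span ℂ (range (UnitAddTorus.mFourier (d := Fin 2))) :
      Submodule ℂ C(UnitAddTorus (Fin 2), ℂ)) : Set C(UnitAddTorus (Fin 2), ℂ)) := hmem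
  rw [Metric.mem_closure_iff] at hmem2
  obtain ⟨P, hP, hdist⟩ := hmem2 ε hε
  rw [SetLike.mem_coe, Finsupp.mem_span_range_iff_exists_finsupp] at hP
  obtain ⟨c, hc⟩ := hP
  refine ⟨c.support, c, fun s t => ?_⟩
  have h3 : ‖G (q ![s, t]) - P (q ![s, t])‖ ≤ dist G P := by
    rw [← dist_eq_norm]
    exact ContinuousMap.dist_apply_le_dist _
  have h4 : G (q ![s, t]) = f s t := by
    rw [hG]; simp [hg]
  have h5 : P (q ![s, t]) = trig c.support c ((s : ℂ), (t : ℂ)) := by
    rw [← hc, Finsupp.sum]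
    unfold trig
    rw [ContinuousMap.sum_apply]
    refine Finset.sum_congr rfl (fun k _ => ?_)
    rw [ContinuousMap.smul_apply, mFourier_coe]
    simp
  rw [← h4, ← h5]
  exact h3.trans_lt hdist

end

end Pool.Agent.Y306.HRT
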