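import Pool.Agent.Y306.HRT.Exist
import Pool.Agent.Y306.HRT.Double
import Pool.Agent.Y306.Rec

set_option autoImplicit false

open Complex Filter Topology Set MeasureTheory intervalIntegral AddCircle
open scoped ENNReal

namespace Pool.Agent.Y306.HRT

noncomputable section

/-- continuous quasi-periodic functions on the plane -/
structure ZQ (Z : ℝ → ℝ → ℂ) : Prop where
  cont : Continuous (fun p : ℝ × ℝ => Z p.1 p.2)
  left : ∀ s t, Z (s + 1) t = E t * Z s t
  right : ∀ s t, Z s (t + 1) = Z s t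

/-- inverse Zak transform -/
def gz (Z : ℝ → ℝ → ℂ) (x : ℝ) : ℂ := ∫ t in (0 : ℝ)..1, Z x t

variable {Z : ℝ → ℝ → ℂ}

lemma ZQ.contr (hZ : ZQ Z) (x : ℝ) : Continuous (fun t => Z x t) :=
  hZ.cont.comp (by fun_prop : Continuous (fun t : ℝ => (x, t)))

lemma ZQ.left_int (hZ : ZQ Z) (n : ℤ) (s t : ℝ) : Z (s + n) t = E (n * t) * Z s t := by
  induction n using Int.induction_on with
  | zero => simp [E_zero]
  | succ n ih =>
    have := hZ.left (s + (n : ℤ)) t
    push_cast at this ih ⊢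
    rw [← add_assoc, this, ih, add_mul, one_mul, E_add]
    ring
  | pred n ih =>
    have h1 := hZ.left (s + ((-(n : ℤ) - 1 : ℤ) : ℝ)) t
    have h2 : s + ((-(n : ℤ) - 1 : ℤ) : ℝ) + 1 = s + ((-(n : ℤ) : ℤ) : ℝ) := by
      push_cast; ring
    rw [h2, ih] at h1
    have h3 := E_neg_mul (t : ℂ)
    have h4 : E (((-(n : ℤ) - 1 : ℤ) : ℂ) * t) = E (((-(n : ℤ) : ℤ) : ℂ) * t) * E (-t) := by
      rw [← E_add]; congr 1; push_cast; ring
    rw [h4]
    linear_combination (E (-t)) * (-h1) + (-(Z (s + ((-(n : ℤ) - 1 : ℤ) : ℝ)) t)) * h3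

lemma gz_add_int (hZ : ZQ Z) (x : ℝ) (n : ℤ) :
    gz Z (x + n) = ∫ t in (0 : ℝ)..1, E (n * t) * Z x t := by
  unfold gz
  refine integral_congr (fun t _ => ?_)
  exact hZ.left_int n x t

lemma gz_shift (hZ : ZQ Z) (x v : ℝ) : (∫ t in (0 : ℝ)..1, Z x (t - v)) = gz Z x := by
  unfold gz
  rw [intervalIntegral.integral_comp_sub_right (fun t => Z x t) v]
  have hp : Function.Periodic (fun t => Z x t) 1 := fun t => hZ.right x t
  have := hp.intervalIntegral_add_eq (0 - v) 0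
  rw [zero_add, show 0 - v + 1 = 1 - v by ring] at this
  exact this

lemma continuous_gz (hZ : ZQ Z) : Continuous (gz Z) := by
  unfold gz
  exact intervalIntegral.continuous_parametric_intervalIntegral_of_continuous' hZ.cont 0 1

lemma coeff_eq (hZ : ZQ Z) (x : ℝ) (n : ℤ) :
    (∫ t in (0 : ℝ)..1, Z x t * E (-(n * t))) = gz Z (x - n) := by
  have h := gz_add_int hZ x (-n)
  push_cast at h
  rw [← sub_eq_add_neg] at h
  rw [h]
  refine integral_congr (fun t _ => ?_)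
  rw [mul_comm, neg_mul]

lemma eq_zero_of_gz (hZ : ZQ Z) (h : gz Z =ᵐ[volume] 0) : ∀ s t, Z s t = 0 := by
  have h1 : gz Z = 0 := by
    have := (continuous_gz hZ).ae_eq_iff_eq volume (continuous_zero : Continuous (0 : ℝ → ℂ))
    exact this.1 h
  intro s t
  have h2 : ∀ n : ℤ, (∫ t in (0 : ℝ)..1, Z s t * E (-(n * t))) = 0 := by
    intro n
    rw [coeff_eq hZ, h1]; rfl
  have h3 := fourier_inv (hZ.contr s) (fun t => hZ.right s t) (by
    simp only [h2]; exact summable_zero) t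
  simp only [h2, zero_mul] at h3
  exact (hasSum_zero.unique h3).symm

lemma ZQ.bound (hZ : ZQ Z) : ∃ C, 0 ≤ C ∧ ∀ s t, ‖Z s t‖ ≤ C := by
  obtain ⟨C, hC⟩ := real_bound (fun s t => ‖Z s t‖) hZ.cont.norm
    (by
      intro s t
      rw [hZ.left, norm_mul, norm_E_real, one_mul])
    (by
      intro s t
      rw [hZ.right])
  exact ⟨C, (norm_nonneg _).trans (hC 0 0), hC⟩

lemma tsum_le (hZ : ZQ Z) {C : ℝ} (hC : ∀ s t, ‖Z s t‖ ≤ C) (x : ℝ) :
    ∑' n : ℤ, ENNReal.ofReal (‖gz Z (x + n * 1)‖ ^ 2) ≤ ENNReal.ofReal (C ^ 2) := by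
  have hp : Function.Periodic (fun t => Z x t) 1 := fun t => hZ.right x t
  have hq : IsOpenQuotientMap (fun x : ℝ => (x : AddCircle (1 : ℝ))) :=
    QuotientAddGroup.isOpenQuotientMap_mk
  set G : C(AddCircle (1 : ℝ), ℂ) := ⟨hp.lift, by
    rw [← hq.continuous_comp_iff]
    exact hZ.contr x⟩ with hG
  have hGx : ∀ t : ℝ, G (t : AddCircle (1 : ℝ)) = Z x t := fun x => rfl
  have hcoeff : ∀ k : ℤ, fourierCoeff G k = gz Z (x - k) := by
    intro k
    rw [← coeff_eq hZ, fourierCoeff_eq_intervalIntegral _ _ 0]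
    simp only [zero_add, div_one, one_smul, smul_eq_mul]
    refine integral_congr (fun y _ => ?_)
    rw [hGx, fourier_coe_apply, mul_comm]
    congr 1
    unfold E
    congr 1
    push_cast
    ring
  have hm : MemLp G 2 haarAddCircle := G.continuous.memLp_of_hasCompactSupport (HasCompactSupport.of_compactSpace G)
  have h1 := hasSum_sq_fourierCoeff (hm.toLp G)
  have h2 : HasSum (fun k : ℤ => ‖gz Z (x - k)‖ ^ 2) (∫ t : AddCircle (1 : ℝ), ‖(hm.toLp G) t‖ ^ 2 ∂haarAddCircle) := by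
    refine h1.congr_fun ?_ |> fun h => h
    intro k
    rw [← hcoeff, congrFun (fourierCoeff_congr_ae hm.coeFn_toLp) k]
  have h3 : (∫ t : AddCircle (1 : ℝ), ‖(hm.toLp G) t‖ ^ 2 ∂haarAddCircle) ≤ C ^ 2 := by
    have h4 : (∫ t : AddCircle (1 : ℝ), ‖(hm.toLp G) t‖ ^ 2 ∂haarAddCircle) =
        ∫ t : AddCircle (1 : ℝ), ‖G t‖ ^ 2 ∂haarAddCircle := by
      refine integral_congr_ae ?_
      filter_upwards [hm.coeFn_toLp] with t ht
      rw [ht]
    rw [h4]
    have h5 : (∫ t : AddCircle (1 : ℝ), ‖G t‖ ^ 2 ∂haarAddCircle) ≤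
        ∫ _t : AddCircle (1 : ℝ), C ^ 2 ∂haarAddCircle := by
      refine integral_mono_of_nonneg (Eventually.of_forall fun t => by positivity)
        (integrable_const _) (Eventually.of_forall fun t => ?_)
      obtain ⟨y, rfl⟩ := QuotientAddGroup.mk_surjective t
      have : ‖G (y : AddCircle (1 : ℝ))‖ ≤ C := by rw [hGx]; exact hC x y
      simp only
      gcongr
    simpa using h5
  have h6 : HasSum (fun k : ℤ => ‖gz Z (x + k * 1)‖ ^ 2) (∫ t : AddCircle (1 : ℝ), ‖(hm.toLp G) t‖ ^ 2 ∂haarAddCircle) := by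
    have := (Equiv.neg ℤ).hasSum_iff.2 h2
    refine this.congr_fun ?_ |> fun h => h
    intro k
    simp
  rw [← ENNReal.ofReal_tsum_of_nonneg (fun n => by positivity) h6.summable, h6.tsum_eq]
  exact ENNReal.ofReal_le_ofReal h3

lemma memLp_gz (hZ : ZQ Z) : MemLp (gz Z) 2 volume := by
  obtain ⟨C, hC0, hC⟩ := hZ.bound
  have hcont := continuous_gz hZ
  rw [memLp_two_iff_integrable_sq_norm hcont.aestronglyMeasurable]
  refine ⟨(hcont.norm.pow 2).aestronglyMeasurable, ?_⟩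
  rw [hasFiniteIntegral_iff_ofReal (Eventually.of_forall fun y => by positivity)]
  have hF : AEMeasurable (fun y => ENNReal.ofReal (‖gz Z y‖ ^ 2)) volume :=
    (ENNReal.continuous_ofReal.comp (hcont.norm.pow 2)).measurable.aemeasurable
  have h1 := lintegral_tsum_shift hF one_pos 0
  rw [← h1]
  calc (∫⁻ y in Ioc (0 : ℝ) (0 + 1), ∑' n : ℤ, ENNReal.ofReal (‖gz Z (y + n * 1)‖ ^ 2))
      ≤ ∫⁻ _y in Ioc (0 : ℝ) (0 + 1), ENNReal.ofReal (C ^ 2) := by
        refine lintegral_mono (fun y => ?_)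
        exact tsum_le hZ hC y
    _ < ⊤ := by
        rw [lintegral_const]
        simp

end

end Pool.Agent.Y306.HRT
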